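import Mathlib
import Pool.Agent.Helper797.BsRes

set_option autoImplicit false

open Complex Filter Topology Metric Set

namespace W587.PL

/-- lower bound for the cosine on the circles `|w| = N π` -/
lemma cos_lower {N : ℕ} (hN : 1 ≤ N) {w : ℂ} (hw : ‖w‖ = N * Real.pi) :
    Real.exp |w.im| ≤ 3 * ‖Complex.cos w‖ := by
  have hpi := Real.pi_gt_three
  have hsq : ‖Complex.cos w‖ ^ 2 = Real.cos w.re ^ 2 + Real.sinh w.im ^ 2 := by
    rw [← Complex.normSq_eq_norm_sq, Complex.normSq_apply, Complex.cos_eq w]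
    have e1 : (Complex.cos (w.re : ℂ) * Complex.cosh (w.im : ℂ) -
        Complex.sin (w.re : ℂ) * Complex.sinh (w.im : ℂ) * I).re = Real.cos w.re * Real.cosh w.im := by
      rw [← Complex.ofReal_cos, ← Complex.ofReal_sin, ← Complex.ofReal_cosh, ← Complex.ofReal_sinh]
      simp only [sub_re, mul_re, mul_im, ofReal_re, ofReal_im, I_re, I_im]
      ring
    have e2 : (Complex.cos (w.re : ℂ) * Complex.cosh (w.im : ℂ) -
        Complex.sin (w.re : ℂ) * Complex.sinh (w.im : ℂ) * I).im = -(Real.sin w.re * Real.sinh w.im) := by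
      rw [← Complex.ofReal_cos, ← Complex.ofReal_sin, ← Complex.ofReal_cosh, ← Complex.ofReal_sinh]
      simp only [sub_im, mul_re, mul_im, ofReal_re, ofReal_im, I_re, I_im]
      ring
    rw [e1, e2]
    have h1 := Real.cosh_sq w.im
    have h2 := Real.sin_sq_add_cos_sq w.re
    nlinarith [h1, h2]
  have hre : ∀ x y : ℝ, x ^ 2 + y ^ 2 = (N * Real.pi) ^ 2 → |y| ≤ 1 → (3 / 4 : ℝ) ≤ Real.cos x ^ 2 := by
    intro x y hxy hy
    have hN' : (1 : ℝ) ≤ N := by exact_mod_cast hN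
    have hy2 : y ^ 2 ≤ 1 := by
      rw [← sq_abs]
      nlinarith [abs_nonneg y]
    have hx2 : (N * Real.pi) ^ 2 - 1 ≤ |x| ^ 2 := by rw [sq_abs]; linarith
    have hx3 : |x| ^ 2 ≤ (N * Real.pi) ^ 2 := by rw [sq_abs]; nlinarith [sq_nonneg y]
    have hNp : 3 ≤ N * Real.pi := by nlinarith
    have hxle : |x| ≤ N * Real.pi := by
      apply le_of_sq_le_sq _ (by positivity)
      exact hx3
    have hxge : N * Real.pi - 1 / 2 ≤ |x| := by
      by_contra h
      push Not at h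
      have : |x| ^ 2 < (N * Real.pi - 1 / 2) ^ 2 := by
        apply sq_lt_sq' _ h
        linarith [abs_nonneg x]
      nlinarith
    set d : ℝ := N * Real.pi - |x| with hd
    have hd0 : 0 ≤ d := by linarith
    have hd1 : d ≤ 1 / 2 := by linarith
    have hcos : Real.cos x ^ 2 = Real.cos d ^ 2 := by
      rw [← Real.cos_abs x, show |x| = N * Real.pi - d by rw [hd]; ring, Real.cos_nat_mul_pi_sub]
      rw [mul_pow, ← pow_mul, mul_comm N 2, pow_mul]
      norm_num
    rw [hcos]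
    have h3 := Real.one_sub_sq_div_two_le_cos (x := d)
    have h4 : 7 / 8 ≤ Real.cos d := by nlinarith
    nlinarith
  have hnn : ‖w‖ ^ 2 = w.re ^ 2 + w.im ^ 2 := by
    rw [← Complex.normSq_eq_norm_sq, Complex.normSq_apply]; ring
  apply le_of_sq_le_sq _ (by positivity)
  rw [mul_pow, hsq]
  have hexp : Real.exp |w.im| ^ 2 = (Real.cosh w.im + |Real.sinh w.im|) ^ 2 := by
    rw [← Real.cosh_abs w.im, Real.abs_sinh, Real.cosh_add_sinh]
  rcases le_total |w.im| 1 with hy | hy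
  · have h1 := hre w.re w.im (by rw [← hnn, hw]) hy
    have h2 : Real.exp |w.im| ≤ Real.exp 1 := Real.exp_le_exp.2 hy
    have h3 := Real.exp_one_lt_d9
    -- exp (2y) = (cosh + sinh)^2 ≤ 2 cosh^2 + 2 sinh^2 = 2 + 4 sinh^2
    rw [hexp]
    have h4 := Real.cosh_sq w.im
    have h5 : (Real.cosh w.im + |Real.sinh w.im|) ^ 2 ≤ 2 * Real.cosh w.im ^ 2 + 2 * |Real.sinh w.im| ^ 2 := by
      nlinarith [sq_nonneg (Real.cosh w.im - |Real.sinh w.im|)]
    rw [sq_abs] at h5
    nlinarith [sq_nonneg (Real.sinh w.im)]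
  · rw [hexp]
    have h4 := Real.cosh_sq w.im
    have h5 : (Real.cosh w.im + |Real.sinh w.im|) ^ 2 ≤ 2 * Real.cosh w.im ^ 2 + 2 * |Real.sinh w.im| ^ 2 := by
      nlinarith [sq_nonneg (Real.cosh w.im - |Real.sinh w.im|)]
    rw [sq_abs] at h5
    have h6 : 1 ≤ Real.sinh w.im ^ 2 := by
      rw [← sq_abs, Real.abs_sinh]
      have : |w.im| ≤ Real.sinh |w.im| := Real.self_le_sinh_iff.2 (abs_nonneg _)
      nlinarith [abs_nonneg w.im]
    nlinarith [sq_nonneg (Real.cos w.re)]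

end W587.PL
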