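import Mathlib
import Pool.Agent.Helper797.BsRes
import Pool.Agent.W587.PL.A

set_option autoImplicit false

open Complex Filter Topology Metric Set

namespace W587.PL

/-- the kernel -/
noncomputable def KK (b : ℝ) (s : ℂ) : ℂ := (b + s) * s * Complex.cos s

/-- its derivative -/
noncomputable def KD (b : ℝ) (s : ℂ) : ℂ :=
  (s + (b + s)) * Complex.cos s - (b + s) * s * Complex.sin s

lemma hasDeriv_KK (b : ℝ) (s : ℂ) : HasDerivAt (KK b) (KD b s) s := by
  have h1 : HasDerivAt (fun s : ℂ => (b : ℂ) + s) 1 s := (hasDerivAt_id s).const_add _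
  have h2 := (h1.mul (hasDerivAt_id s)).mul (Complex.hasDerivAt_cos s)
  refine h2.congr_deriv ?_
  unfold KD
  simp only [id, Pi.mul_apply]
  ring

/-- the nodes -/
noncomputable def nod (k : ℤ) : ℂ := ((((k : ℝ) + 1 / 2) * Real.pi : ℝ) : ℂ)

lemma nod_inj : Function.Injective nod := by
  intro k l h
  unfold nod at h
  have h1 := Complex.ofReal_injective h
  have h2 := mul_right_cancel₀ Real.pi_ne_zero h1
  have h3 : (k : ℝ) = l := by linarith
  exact_mod_cast h3

lemma sin_nod (k : ℤ) : Complex.sin (nod k) ^ 2 = 1 ∧ Complex.cos (nod k) = 0 := by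
  have h : Complex.cos (nod k) = 0 := by
    rw [Complex.cos_eq_zero_iff]
    refine ⟨k, ?_⟩
    unfold nod
    push_cast
    ring
  refine ⟨?_, h⟩
  have := Complex.sin_sq_add_cos_sq (nod k)
  rw [h] at this
  simpa using this

/-- the set of all poles -/
noncomputable def ZZ (b : ℝ) (N : ℕ) : Finset ℂ :=
  insert (-(b : ℂ)) (insert 0 ((Finset.Ico (-(N : ℤ)) N).image nod))

lemma nod_mul_pos {b : ℝ} (hb : 0 < b) (hb2 : b < Real.pi / 2) (k : ℤ) :
    0 < (b + ((k : ℝ) + 1 / 2) * Real.pi) * (((k : ℝ) + 1 / 2) * Real.pi) := by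
  have hpi := Real.pi_pos
  rcases le_or_gt 0 k with hk | hk
  · have : (0 : ℝ) ≤ k := by exact_mod_cast hk
    positivity
  · have : (k : ℝ) ≤ -1 := by exact_mod_cast (by omega : k ≤ -1)
    apply mul_pos_of_neg_of_neg
    · nlinarith
    · nlinarith

lemma KK_ne {b : ℝ} {N : ℕ} {s : ℂ} (hs : ‖s‖ ≤ N * Real.pi) (h : s ∉ ZZ b N) : KK b s ≠ 0 := by
  unfold KK
  unfold ZZ at h
  rw [Finset.mem_insert, Finset.mem_insert, Finset.mem_image] at h
  push Not at h
  obtain ⟨h1, h2, h3⟩ := h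
  refine mul_ne_zero (mul_ne_zero ?_ h2) ?_
  · intro h4
    exact h1 (by linear_combination h4)
  · intro h4
    rw [Complex.cos_eq_zero_iff] at h4
    obtain ⟨k, hk⟩ := h4
    have e : s = nod k := by
      rw [hk]; unfold nod; push_cast; ring
    refine h3 k ?_ e.symm
    rw [e] at hs
    unfold nod at hs
    rw [Complex.norm_real, Real.norm_eq_abs, abs_mul, abs_of_pos Real.pi_pos] at hs
    have h5 := le_of_mul_le_mul_right hs Real.pi_pos
    rw [abs_le] at h5
    rw [Finset.mem_Ico]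
    constructor
    · by_contra h6
      push Not at h6
      have : (k : ℝ) ≤ -N - 1 := by exact_mod_cast (by omega : k ≤ -(N:ℤ) - 1)
      linarith
    · by_contra h6
      push Not at h6
      have : (N : ℝ) ≤ k := by exact_mod_cast h6
      linarith

lemma KD_ne {b : ℝ} (hb : 0 < b) (hb2 : b < Real.pi / 2) {N : ℕ} {p : ℂ} (hp : p ∈ ZZ b N) :
    KD b p ≠ 0 := by
  unfold ZZ at hp
  rw [Finset.mem_insert, Finset.mem_insert, Finset.mem_image] at hp
  unfold KD
  have hcos : 0 < Real.cos b := Real.cos_pos_of_mem_Ioo ⟨by linarith [Real.pi_pos], hb2⟩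
  rcases hp with rfl | rfl | ⟨k, -, rfl⟩
  · rw [show (b : ℂ) + -(b : ℂ) = 0 by ring]
    simp only [add_zero, zero_mul, sub_zero, Complex.cos_neg]
    refine mul_ne_zero (neg_ne_zero.2 (by exact_mod_cast hb.ne')) ?_
    rw [← Complex.ofReal_cos]
    exact_mod_cast hcos.ne'
  · simp only [add_zero, zero_add, Complex.cos_zero, mul_one, mul_zero, Complex.sin_zero, sub_zero]
    exact_mod_cast hb.ne'
  · obtain ⟨h1, h2⟩ := sin_nod k
    rw [h2, mul_zero, zero_sub, neg_ne_zero]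
    refine mul_ne_zero ?_ (fun h => by rw [h] at h1; norm_num at h1)
    have h3 := (nod_mul_pos hb hb2 k).ne'
    unfold nod
    have e : ((b : ℂ) + ((((k : ℝ) + 1 / 2) * Real.pi : ℝ) : ℂ)) * ((((k : ℝ) + 1 / 2) * Real.pi : ℝ) : ℂ) =
        (((b + ((k : ℝ) + 1 / 2) * Real.pi) * (((k : ℝ) + 1 / 2) * Real.pi) : ℝ) : ℂ) := by
      push_cast; ring
    rw [e]
    exact_mod_cast h3

lemma KK_zero {b : ℝ} {N : ℕ} {p : ℂ} (hp : p ∈ ZZ b N) : KK b p = 0 := by
  unfold ZZ at hp
  rw [Finset.mem_insert, Finset.mem_insert, Finset.mem_image] at hp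
  unfold KK
  rcases hp with rfl | rfl | ⟨k, -, rfl⟩
  · ring
  · ring
  · rw [(sin_nod k).2, mul_zero]

lemma ZZ_norm {b : ℝ} (hb : 0 < b) (hb2 : b < Real.pi / 2) {N : ℕ} (hN : 1 ≤ N) {p : ℂ}
    (hp : p ∈ ZZ b N) : ‖p‖ < N * Real.pi := by
  have hpi := Real.pi_pos
  have hN' : (1 : ℝ) ≤ N := by exact_mod_cast hN
  unfold ZZ at hp
  rw [Finset.mem_insert, Finset.mem_insert, Finset.mem_image] at hp
  rcases hp with rfl | rfl | ⟨k, hk, rfl⟩
  · rw [norm_neg, Complex.norm_real, Real.norm_eq_abs, abs_of_pos hb]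
    nlinarith
  · rw [norm_zero]; positivity
  · rw [Finset.mem_Ico] at hk
    unfold nod
    rw [Complex.norm_real, Real.norm_eq_abs, abs_mul, abs_of_pos hpi]
    apply mul_lt_mul_of_pos_right _ hpi
    rw [abs_lt]
    have h1 : -(N : ℝ) ≤ k := by exact_mod_cast hk.1
    have h2 : (k : ℝ) ≤ N - 1 := by exact_mod_cast (by omega : k ≤ (N:ℤ) - 1)
    constructor <;> linarith

/-- residue theorem for `g (b + s) / KK b s` -/
lemma residues {g : ℂ → ℂ} (hg : Differentiable ℂ g) {b : ℝ} (hb : 0 < b) (hb2 : b < Real.pi / 2)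
    {N : ℕ} (hN : 1 ≤ N) :
    (∮ s in C(0, N * Real.pi), g (b + s) / KK b s) =
      2 * Real.pi * I * ∑ p ∈ ZZ b N, g (b + p) / KD b p := by
  have hR : 0 < (N : ℝ) * Real.pi := by
    have : (1 : ℝ) ≤ N := by exact_mod_cast hN
    have := Real.pi_pos
    positivity
  refine Pool.Agent.Helper797.Bs.residue_sum hR (ZZ b N) (fun p hp => ZZ_norm hb hb2 hN hp)
    (fun p => g (b + p) / KD b p) _ ?_ ?_
  · intro s hs hs2
    refine DifferentiableAt.div ?_ (hasDeriv_KK b s).differentiableAt (KK_ne hs hs2)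
    exact (hg.differentiableAt).comp s (by fun_prop)
  · intro p hp
    have h1 : Tendsto (slope (KK b) p) (𝓝[≠] p) (𝓝 (KD b p)) :=
      hasDerivAt_iff_tendsto_slope.1 (hasDeriv_KK b p)
    have h2 : Tendsto (fun s : ℂ => g (b + s)) (𝓝[≠] p) (𝓝 (g (b + p))) := by
      have : Continuous (fun s : ℂ => g (b + s)) := hg.continuous.comp (by fun_prop)
      exact (this.tendsto p).mono_left nhdsWithin_le_nhds
    refine (h2.div h1 (KD_ne hb hb2 hp)).congr' ?_
    filter_upwards [self_mem_nhdsWithin] with s hs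
    have hs' : s - p ≠ 0 := sub_ne_zero.2 hs
    simp only [Pi.div_apply]
    rw [slope_def_field, KK_zero hp, sub_zero, div_div_eq_mul_div]
    rw [mul_div_assoc', mul_comm]

end W587.PL
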