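import Mathlib
import Pool.Agent.W587.PL.B

set_option autoImplicit false

open Complex Filter Topology Metric Set

namespace W587.PL

/-- the sum over the zeros of the cosine -/
noncomputable def SN (g : ℂ → ℂ) (b : ℝ) (N : ℕ) : ℂ :=
  ∑ k ∈ Finset.Ico (-(N : ℤ)) N, g (b + nod k) / KD b (nod k)

lemma sum_ZZ (g : ℂ → ℂ) {b : ℝ} (hb : 0 < b) (hb2 : b < Real.pi / 2) (N : ℕ) :
    ∑ p ∈ ZZ b N, g (b + p) / KD b p =
      g 0 / (-b * Complex.cos b) + g b / b + SN g b N := by
  have hpi := Real.pi_pos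
  have hb0 : (b : ℂ) ≠ 0 := by exact_mod_cast hb.ne'
  have hnod : ∀ k : ℤ, Real.pi / 2 ≤ |((k : ℝ) + 1 / 2) * Real.pi| := by
    intro k
    rw [abs_mul, abs_of_pos hpi]
    have : 1 / 2 ≤ |(k : ℝ) + 1 / 2| := by
      rcases le_or_gt 0 k with hk | hk
      · have : (0 : ℝ) ≤ k := by exact_mod_cast hk
        rw [abs_of_nonneg (by linarith)]; linarith
      · have : (k : ℝ) ≤ -1 := by exact_mod_cast (by omega : k ≤ -1)
        rw [abs_of_neg (by linarith)]; linarith
    nlinarith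
  have h0 : (0 : ℂ) ∉ (Finset.Ico (-(N : ℤ)) N).image nod := by
    rw [Finset.mem_image]
    rintro ⟨k, -, hk⟩
    unfold nod at hk
    have h1 : ((k : ℝ) + 1 / 2) * Real.pi = 0 := by exact_mod_cast hk
    have h2 := hnod k
    rw [h1, abs_zero] at h2
    linarith
  have h1 : -(b : ℂ) ∉ insert 0 ((Finset.Ico (-(N : ℤ)) N).image nod) := by
    rw [Finset.mem_insert, Finset.mem_image]
    rintro (h | ⟨k, -, hk⟩)
    · exact hb0 (neg_eq_zero.1 h)
    · unfold nod at hk
      have h2 : ((k : ℝ) + 1 / 2) * Real.pi = -b := by exact_mod_cast hk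
      have h3 := hnod k
      rw [h2, abs_neg, abs_of_pos hb] at h3
      linarith
  unfold ZZ SN
  rw [Finset.sum_insert h1, Finset.sum_insert h0, Finset.sum_image (fun a _ b _ h => nod_inj h)]
  have e1 : KD b (-(b : ℂ)) = -b * Complex.cos b := by
    unfold KD
    rw [Complex.cos_neg]
    ring
  have e2 : KD b 0 = b := by
    unfold KD
    simp
  rw [e1, e2, add_neg_cancel, add_zero, add_assoc]

/-- the real sum of the weights -/
noncomputable def WN (b : ℝ) (N : ℕ) : ℝ :=
  ∑ k ∈ Finset.Ico (-(N : ℤ)) N,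
    1 / ((b + ((k : ℝ) + 1 / 2) * Real.pi) * (((k : ℝ) + 1 / 2) * Real.pi))

lemma KD_nod {b : ℝ} (k : ℤ) : KD b (nod k) =
    -((((b + ((k : ℝ) + 1 / 2) * Real.pi) * (((k : ℝ) + 1 / 2) * Real.pi) : ℝ) : ℂ) *
      Complex.sin (nod k)) := by
  unfold KD
  rw [(sin_nod k).2]
  unfold nod
  push_cast
  ring

lemma norm_sin_nod (k : ℤ) : ‖Complex.sin (nod k)‖ = 1 := by
  have h := congrArg norm (sin_nod k).1
  rw [norm_pow, norm_one] at h
  have h2 := norm_nonneg (Complex.sin (nod k))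
  nlinarith

lemma norm_KD {b : ℝ} (hb : 0 < b) (hb2 : b < Real.pi / 2) (k : ℤ) : ‖KD b (nod k)‖ =
    (b + ((k : ℝ) + 1 / 2) * Real.pi) * (((k : ℝ) + 1 / 2) * Real.pi) := by
  rw [KD_nod, norm_neg, norm_mul, norm_sin_nod, mul_one, Complex.norm_real, Real.norm_eq_abs,
    abs_of_pos (nod_mul_pos hb hb2 k)]

lemma norm_SN_le {g : ℂ → ℂ} {b : ℝ} (hb : 0 < b) (hb2 : b < Real.pi / 2) {N : ℕ}
    (h : ∀ k ∈ Finset.Ico (-(N : ℤ)) N, ‖g (b + nod k)‖ ≤ 1) : ‖SN g b N‖ ≤ WN b N := by
  unfold SN WN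
  refine (norm_sum_le _ _).trans (Finset.sum_le_sum fun k hk => ?_)
  rw [norm_div, norm_KD hb hb2]
  exact div_le_div_of_nonneg_right (h k hk) (nod_mul_pos hb hb2 k).le

lemma SN_sin {b : ℝ} (hb : 0 < b) (hb2 : b < Real.pi / 2) (N : ℕ) :
    SN (fun w => Complex.sin (w - b)) b N = -((WN b N : ℝ) : ℂ) := by
  unfold SN WN
  rw [Complex.ofReal_sum, ← Finset.sum_neg_distrib]
  refine Finset.sum_congr rfl fun k _ => ?_
  have h1 := (nod_mul_pos hb hb2 k).ne'
  have h2 : Complex.sin (nod k) ≠ 0 := by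
    rw [← norm_ne_zero_iff, norm_sin_nod]; norm_num
  rw [KD_nod]
  simp only [add_sub_cancel_left]
  have h3 : (((b + ((k : ℝ) + 1 / 2) * Real.pi) * (((k : ℝ) + 1 / 2) * Real.pi) : ℝ) : ℂ) ≠ 0 := by
    exact_mod_cast h1
  rw [Complex.ofReal_div, Complex.ofReal_one]
  field_simp

lemma norm_sin_le (w : ℂ) : ‖Complex.sin w‖ ≤ Real.exp |w.im| := by
  rw [Complex.sin]
  rw [norm_div, norm_mul, norm_I, mul_one]
  have h1 : ‖Complex.exp (-w * I) - Complex.exp (w * I)‖ ≤
      ‖Complex.exp (-w * I)‖ + ‖Complex.exp (w * I)‖ := norm_sub_le _ _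
  rw [Complex.norm_exp, Complex.norm_exp] at h1
  have e1 : (-w * I).re = w.im := by simp
  have e2 : (w * I).re = -w.im := by simp
  rw [e1, e2] at h1
  have h2 : Real.exp w.im ≤ Real.exp |w.im| := Real.exp_le_exp.2 (le_abs_self _)
  have h3 : Real.exp (-w.im) ≤ Real.exp |w.im| := Real.exp_le_exp.2 (neg_le_abs _)
  have h4 : ‖(2 : ℂ)‖ = 2 := by simp
  rw [h4]
  linarith

/-- bound for the contour integral -/
lemma err_bound {g : ℂ → ℂ} (hg : Differentiable ℂ g) {b : ℝ} (hb : 0 < b) (hb2 : b < Real.pi / 2)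
    {N : ℕ} (hN : 1 ≤ N) (h : ∀ w : ℂ, ‖w‖ ≤ N * Real.pi + b → ‖g w‖ ≤ Real.exp |w.im|) :
    ‖g 0 / (-b * Complex.cos b) + g b / b + SN g b N‖ ≤ 3 / (N * Real.pi - b) := by
  have hpi := Real.pi_pos
  have hN' : (1 : ℝ) ≤ N := by exact_mod_cast hN
  have hNp : Real.pi ≤ N * Real.pi := by nlinarith
  have hR : 0 < (N : ℝ) * Real.pi := by positivity
  have hRb : 0 < N * Real.pi - b := by linarith
  have h1 := residues hg hb hb2 hN
  rw [sum_ZZ g hb hb2] at h1
  have h2 : ‖∮ s in C(0, N * Real.pi), g (b + s) / KK b s‖ ≤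
      2 * Real.pi * (N * Real.pi) * (3 / ((N * Real.pi - b) * (N * Real.pi))) := by
    refine circleIntegral.norm_integral_le_of_norm_le_const hR.le fun s hs => ?_
    rw [mem_sphere_zero_iff_norm] at hs
    have h3 := cos_lower hN hs
    have h4 : ‖g (b + s)‖ ≤ Real.exp |s.im| := by
      have h5 := h (b + s) (by
        refine (norm_add_le _ _).trans ?_
        rw [Complex.norm_real, Real.norm_eq_abs, abs_of_pos hb, hs]
        linarith)
      simpa using h5
    have h5 : N * Real.pi - b ≤ ‖(b : ℂ) + s‖ := by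
      have h6 := norm_sub_norm_le s (-(b : ℂ))
      rw [norm_neg, Complex.norm_real, Real.norm_eq_abs, abs_of_pos hb, hs, sub_neg_eq_add,
        add_comm s] at h6
      exact h6
    unfold KK
    rw [norm_div, norm_mul, norm_mul, hs]
    have h6 : 0 < ‖Complex.cos s‖ := by
      have := Real.exp_pos |s.im|
      nlinarith
    rw [div_le_div_iff₀ (by
      have : 0 < ‖(b : ℂ) + s‖ := lt_of_lt_of_le hRb h5
      positivity) (by positivity)]
    have h7 : ‖g (b + s)‖ ≤ 3 * ‖Complex.cos s‖ := h4.trans h3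
    calc ‖g (b + s)‖ * ((N * Real.pi - b) * (N * Real.pi))
        ≤ (3 * ‖Complex.cos s‖) * (‖(b : ℂ) + s‖ * (N * Real.pi)) := by
          apply mul_le_mul h7 _ (by positivity) (by positivity)
          exact mul_le_mul_of_nonneg_right h5 hR.le
      _ = _ := by ring
  rw [h1, norm_mul, norm_mul, norm_mul, Complex.norm_real, norm_I, Complex.norm_ofNat,
    Real.norm_eq_abs, abs_of_pos hpi, mul_one] at h2
  have h3 : 2 * Real.pi * (N * Real.pi) * (3 / ((N * Real.pi - b) * (N * Real.pi))) =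
      2 * Real.pi * (3 / (N * Real.pi - b)) := by
    field_simp
  rw [h3] at h2
  exact le_of_mul_le_mul_left h2 (by positivity)

/-- **The local sampling inequality.** -/
theorem LS1 {g : ℂ → ℂ} (hg : Differentiable ℂ g) {b : ℝ} (hb : 0 < b) (hb2 : b < Real.pi / 2)
    {N : ℕ} (hN : 1 ≤ N) (h : ∀ w : ℂ, ‖w‖ ≤ N * Real.pi + b → ‖g w‖ ≤ Real.exp |w.im|) :
    ‖g 0‖ ≤ ‖g b‖ + Real.sin b + 6 * b / (N * Real.pi - b) := by
  have hpi := Real.pi_pos
  have hN' : (1 : ℝ) ≤ N := by exact_mod_cast hN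
  have hNp : Real.pi ≤ N * Real.pi := by nlinarith
  have hRb : 0 < N * Real.pi - b := by linarith
  have hcos : 0 < Real.cos b := Real.cos_pos_of_mem_Ioo ⟨by linarith, hb2⟩
  have hcos1 : Real.cos b ≤ 1 := Real.cos_le_one b
  have hbc : (b : ℂ) ≠ 0 := by exact_mod_cast hb.ne'
  -- the weights
  have hW : WN b N ≤ Real.sin b / (b * Real.cos b) + 3 / (N * Real.pi - b) := by
    have h1 := err_bound (g := fun w => Complex.sin (w - b)) (by fun_prop) hb hb2 hN (fun w _ => by
      have := norm_sin_le (w - b)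
      simpa using this)
    rw [SN_sin hb hb2] at h1
    simp only [sub_self, Complex.sin_zero, zero_div, add_zero, zero_sub, Complex.sin_neg] at h1
    have e : -Complex.sin b / (-b * Complex.cos b) + -((WN b N : ℝ) : ℂ) =
        ((Real.sin b / (b * Real.cos b) - WN b N : ℝ) : ℂ) := by
      push_cast
      rw [neg_mul, neg_div_neg_eq]
      ring
    rw [e, Complex.norm_real, Real.norm_eq_abs] at h1
    have := (abs_le.1 h1).1
    linarith
  have hS : ‖SN g b N‖ ≤ WN b N := by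
    refine norm_SN_le hb hb2 fun k hk => ?_
    have h1 : ‖(b : ℂ) + nod k‖ ≤ N * Real.pi + b := by
      refine (norm_add_le _ _).trans ?_
      rw [Complex.norm_real, Real.norm_eq_abs, abs_of_pos hb]
      have : nod k ∈ ZZ b N := by
        unfold ZZ
        rw [Finset.mem_insert, Finset.mem_insert]
        exact Or.inr (Or.inr (Finset.mem_image_of_mem _ hk))
      linarith [(ZZ_norm hb hb2 hN this).le]
    have h2 := h _ h1
    have e : ((b : ℂ) + nod k).im = 0 := by
      unfold nod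
      rw [Complex.add_im, Complex.ofReal_im, Complex.ofReal_im, add_zero]
    rw [e, abs_zero, Real.exp_zero] at h2
    exact h2
  have hE := err_bound hg hb hb2 hN h
  set E : ℂ := g 0 / (-b * Complex.cos b) + g b / b + SN g b N with hEdef
  have hcc : Complex.cos b ≠ 0 := by
    rw [← Complex.ofReal_cos]; exact_mod_cast hcos.ne'
  have key : g 0 = ((b * Real.cos b : ℝ) : ℂ) * (g b / b + SN g b N - E) := by
    rw [hEdef]
    push_cast
    field_simp
    ring
  have hn : ‖g 0‖ ≤ (b * Real.cos b) * (‖g b‖ / b + WN b N + 3 / (N * Real.pi - b)) := by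
    rw [key, norm_mul, Complex.norm_real, Real.norm_eq_abs, abs_of_pos (by positivity)]
    apply mul_le_mul_of_nonneg_left _ (by positivity)
    refine (norm_sub_le _ _).trans ?_
    refine add_le_add ?_ hE
    refine (norm_add_le _ _).trans ?_
    refine add_le_add ?_ hS
    rw [norm_div, Complex.norm_real, Real.norm_eq_abs, abs_of_pos hb]
  refine hn.trans ?_
  have h1 : (b * Real.cos b) * (‖g b‖ / b + WN b N + 3 / (N * Real.pi - b)) ≤
      (b * Real.cos b) * (‖g b‖ / b + (Real.sin b / (b * Real.cos b) + 3 / (N * Real.pi - b)) +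
        3 / (N * Real.pi - b)) := by
    apply mul_le_mul_of_nonneg_left _ (by positivity)
    linarith
  refine h1.trans ?_
  have h2 : (b * Real.cos b) * (‖g b‖ / b + (Real.sin b / (b * Real.cos b) + 3 / (N * Real.pi - b)) +
        3 / (N * Real.pi - b)) = Real.cos b * ‖g b‖ + Real.sin b +
        Real.cos b * (6 * b / (N * Real.pi - b)) := by
    field_simp
    ring
  rw [h2]
  have h3 : Real.cos b * ‖g b‖ ≤ 1 * ‖g b‖ := mul_le_mul_of_nonneg_right hcos1 (norm_nonneg _)
  have h4 : Real.cos b * (6 * b / (N * Real.pi - b)) ≤ 1 * (6 * b / (N * Real.pi - b)) :=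
    mul_le_mul_of_nonneg_right hcos1 (by positivity)
  linarith

end W587.PL
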