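import Mathlib
import Pool.Agent.W587.PL.C

set_option autoImplicit false

open Complex Filter Topology Metric Set

namespace W587.PL

lemma LS_pos {g : ℂ → ℂ} (hg : Differentiable ℂ g) {τ b M : ℝ} (hτ : 0 < τ) (hM : 0 < M) (hb : 0 < b)
    (hb2 : τ * b < Real.pi / 2) {N : ℕ} (hN : 1 ≤ N)
    (h : ∀ w : ℂ, ‖w‖ ≤ (N * Real.pi + τ * b) / τ → ‖g w‖ ≤ M * Real.exp (τ * |w.im|)) :
    ‖g 0‖ ≤ ‖g b‖ + M * (Real.sin (τ * b) + 6 / N) := by
  have hpi := Real.pi_pos
  have hN' : (1 : ℝ) ≤ N := by exact_mod_cast hN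
  have h1 := LS1 (g := fun w => (M : ℂ)⁻¹ * g (w / τ)) (by
    apply Differentiable.const_mul
    exact hg.comp (by fun_prop)) (b := τ * b) (by positivity) hb2 hN (fun w hw => by
      rw [norm_mul, norm_inv, Complex.norm_real, Real.norm_eq_abs, abs_of_pos hM, inv_mul_le_iff₀ hM]
      have h2 := h (w / τ) (by
        rw [norm_div, Complex.norm_real, Real.norm_eq_abs, abs_of_pos hτ]
        exact div_le_div_of_nonneg_right hw hτ.le)
      have e : (w / (τ : ℂ)).im = w.im / τ := Complex.div_ofReal_im w τ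
      rw [e, abs_div, abs_of_pos hτ, mul_div_cancel₀ _ hτ.ne'] at h2
      exact h2)
  have hτc : (τ : ℂ) ≠ 0 := by exact_mod_cast hτ.ne'
  simp only [zero_div] at h1
  have e1 : (((τ * b : ℝ) : ℂ)) / τ = b := by
    push_cast
    field_simp
  rw [e1, norm_mul, norm_mul, norm_inv, Complex.norm_real, Real.norm_eq_abs, abs_of_pos hM] at h1
  have h3 : 6 * (τ * b) / (N * Real.pi - τ * b) ≤ 6 / N := by
    have h4 : 0 < N * Real.pi - τ * b := by nlinarith
    rw [div_le_div_iff₀ h4 (by positivity)]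
    nlinarith
  have h5 : M⁻¹ * ‖g 0‖ ≤ M⁻¹ * ‖g b‖ + Real.sin (τ * b) + 6 / N := by linarith
  have h6 := mul_le_mul_of_nonneg_left h5 hM.le
  rw [← mul_assoc, mul_inv_cancel₀ hM.ne', one_mul] at h6
  refine h6.trans (le_of_eq ?_)
  field_simp
  ring

/-- scaled sampling inequality -/
theorem LS {g : ℂ → ℂ} (hg : Differentiable ℂ g) {τ b M : ℝ} (hτ : 0 < τ) (hM : 0 < M)
    (hb2 : τ * |b| < Real.pi / 2) {N : ℕ} (hN : 1 ≤ N)
    (h : ∀ w : ℂ, ‖w‖ ≤ (N * Real.pi + τ * |b|) / τ → ‖g w‖ ≤ M * Real.exp (τ * |w.im|)) :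
    ‖g 0‖ ≤ ‖g b‖ + M * (Real.sin (τ * |b|) + 6 / N) := by
  have hN' : (1 : ℝ) ≤ N := by exact_mod_cast hN
  rcases lt_trichotomy b 0 with hb | hb | hb
  · rw [abs_of_neg hb] at hb2 h ⊢
    have h1 := LS_pos (g := fun w => g (-w)) (hg.comp (by fun_prop)) hτ hM (b := -b) (by linarith) hb2
      hN (fun w hw => by
        have := h (-w) (by rwa [norm_neg])
        simpa using this)
    simpa using h1
  · subst hb
    simp only [Complex.ofReal_zero, abs_zero, mul_zero, Real.sin_zero, zero_add]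
    have : 0 ≤ M * (6 / N) := by positivity
    linarith
  · rw [abs_of_pos hb] at hb2 h ⊢
    exact LS_pos hg hτ hM hb hb2 hN h

/-- three lines on half a box -/
lemma box_pos {G : ℂ → ℂ} (hG : Differentiable ℂ G) {a V M A : ℝ} (ha : 0 < a) (hV : 0 < V)
    (hM : 1 ≤ M) (hA : 1 ≤ A) (h0 : ∀ y : ℝ, |y| ≤ V → ‖G (y * I)‖ ≤ M)
    (h1 : ∀ y : ℝ, |y| ≤ V → ‖G (a + y * I)‖ ≤ A)
    (h2 : ∀ x y : ℝ, 0 ≤ x → x ≤ a → |y| = V → ‖G (x + y * I)‖ ≤ 1)
    {x y : ℝ} (hx0 : 0 ≤ x) (hxa : x ≤ a) (hy : |y| ≤ V) :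
    ‖G (x + y * I)‖ ≤ M * Real.exp (x * ((Real.log A - Real.log M) / a)) := by
  set c : ℝ := (Real.log A - Real.log M) / a with hc
  set H : ℂ → ℂ := fun z => G z * Complex.exp (-(c : ℂ) * z) with hH
  have hHd : Differentiable ℂ H := hG.mul (by fun_prop)
  have hnorm : ∀ x y : ℝ, ‖H (x + y * I)‖ = ‖G (x + y * I)‖ * Real.exp (-(c * x)) := by
    intro x y
    rw [hH]
    simp only
    rw [norm_mul, Complex.norm_exp]
    congr 2
    simp
  have hMp : 0 < M := by linarith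
  have hAp : 0 < A := by linarith
  have hlM : 0 ≤ Real.log M := Real.log_nonneg hM
  have hlA : 0 ≤ Real.log A := Real.log_nonneg hA
  have hbound : ∀ z ∈ frontier (Ioo (0 : ℝ) a ×ℂ Ioo (-V) V), ‖H z‖ ≤ M := by
    intro z hz
    rw [Complex.frontier_reProdIm, closure_Ioo ha.ne, frontier_Ioo (by linarith),
      frontier_Ioo ha, closure_Ioo (by linarith : -V ≠ V)] at hz
    have ez : z = z.re + z.im * I := (Complex.re_add_im z).symm
    rw [ez, hnorm]
    rcases hz with hz | hz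
    · rw [Complex.mem_reProdIm] at hz
      obtain ⟨⟨hz1, hz2⟩, hz3⟩ := hz
      have hz4 : |z.im| = V := by
        rcases hz3 with h | h
        · rw [h, abs_neg, abs_of_pos hV]
        · rw [mem_singleton_iff] at h
          rw [h, abs_of_pos hV]
      have h5 := h2 z.re z.im hz1 hz2 hz4
      have h6 : Real.exp (-(c * z.re)) ≤ M := by
        rw [← Real.exp_log hMp, Real.exp_le_exp]
        have h7 : -(c * z.re) = (z.re / a) * (Real.log M - Real.log A) := by
          rw [hc]; field_simp; ring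
        rw [h7]
        have h8 : 0 ≤ z.re / a := by positivity
        have h9 : z.re / a ≤ 1 := (div_le_one ha).2 hz2
        nlinarith
      calc ‖G (z.re + z.im * I)‖ * Real.exp (-(c * z.re)) ≤ 1 * M :=
            mul_le_mul h5 h6 (Real.exp_pos _).le (by norm_num)
        _ = M := one_mul M
    · rw [Complex.mem_reProdIm] at hz
      obtain ⟨hz1, hz2⟩ := hz
      have hz3 : |z.im| ≤ V := abs_le.2 ⟨hz2.1, hz2.2⟩
      rcases hz1 with h | h
      · rw [h]
        have := h0 z.im hz3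
        simpa using this
      · rw [mem_singleton_iff] at h
        rw [h]
        have h5 := h1 z.im hz3
        have h6 : Real.exp (-(c * a)) = M / A := by
          rw [hc, div_mul_cancel₀ _ ha.ne', neg_sub, Real.exp_sub, Real.exp_log hMp, Real.exp_log hAp]
        rw [h6]
        calc ‖G (a + z.im * I)‖ * (M / A) ≤ A * (M / A) :=
              mul_le_mul_of_nonneg_right h5 (by positivity)
          _ = M := by field_simp
  have hbdd : Bornology.IsBounded (Ioo (0 : ℝ) a ×ℂ Ioo (-V) V) :=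
    (Metric.isBounded_Ioo 0 a).reProdIm (Metric.isBounded_Ioo (-V) V)
  have hmem : ((x : ℂ) + y * I) ∈ closure (Ioo (0 : ℝ) a ×ℂ Ioo (-V) V) := by
    rw [Complex.closure_reProdIm, closure_Ioo ha.ne, closure_Ioo (by linarith : -V ≠ V),
      Complex.mem_reProdIm]
    simp only [add_re, ofReal_re, mul_re, I_re, mul_zero, ofReal_im, I_im, mul_one, sub_self,
      add_zero, add_im, mul_im, zero_add]
    exact ⟨⟨hx0, hxa⟩, abs_le.1 hy⟩
  have h3 := Complex.norm_le_of_forall_mem_frontier_norm_le hbdd hHd.diffContOnCl hbound hmem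
  rw [hnorm] at h3
  have h4 : ‖G (x + y * I)‖ = ‖G (x + y * I)‖ * Real.exp (-(c * x)) * Real.exp (x * c) := by
    rw [mul_assoc, ← Real.exp_add]
    rw [show -(c * x) + x * c = 0 by ring, Real.exp_zero, mul_one]
  rw [h4]
  exact mul_le_mul_of_nonneg_right h3 (Real.exp_pos _).le

/-- three lines on a box -/
theorem box {G : ℂ → ℂ} (hG : Differentiable ℂ G) {a V M A : ℝ} (ha : 0 < a) (hV : 0 < V)
    (hM : 1 ≤ M) (hA : 1 ≤ A) (h0 : ∀ y : ℝ, |y| ≤ V → ‖G (y * I)‖ ≤ M)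
    (h1 : ∀ x y : ℝ, |x| = a → |y| ≤ V → ‖G (x + y * I)‖ ≤ A)
    (h2 : ∀ x y : ℝ, |x| ≤ a → |y| = V → ‖G (x + y * I)‖ ≤ 1)
    {x y : ℝ} (hx : |x| ≤ a) (hy : |y| ≤ V) :
    ‖G (x + y * I)‖ ≤ M * Real.exp (|x| * ((Real.log A - Real.log M) / a)) := by
  rcases le_total 0 x with h | h
  · rw [abs_of_nonneg h] at hx ⊢
    exact box_pos hG ha hV hM hA h0 (fun y hy => h1 a y (abs_of_pos ha) hy)
      (fun x y hx0 hxa hy => h2 x y (by rwa [abs_of_nonneg hx0]) hy) h hx hy
  · rw [abs_of_nonpos h] at hx ⊢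
    have h3 := box_pos (G := fun z => G (-z)) (hG.comp (by fun_prop)) ha hV hM hA (fun y hy => by
      have := h0 (-y) (by rwa [abs_neg])
      simpa using this) (fun y hy => by
      have := h1 (-a) (-y) (by rw [abs_neg, abs_of_pos ha]) (by rwa [abs_neg])
      have e : -((a : ℂ) + y * I) = ((-a : ℝ) : ℂ) + ((-y : ℝ) : ℂ) * I := by push_cast; ring
      rw [e]
      exact this) (fun x y hx0 hxa hy => by
      have := h2 (-x) (-y) (by rwa [abs_neg, abs_of_nonneg hx0]) (by rwa [abs_neg])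
      have e : -((x : ℂ) + y * I) = ((-x : ℝ) : ℂ) + ((-y : ℝ) : ℂ) * I := by push_cast; ring
      rw [e]
      exact this) (x := -x) (y := -y) (by linarith) hx (by rwa [abs_neg])
    have e : -(((-x : ℝ) : ℂ) + ((-y : ℝ) : ℂ) * I) = (x : ℂ) + y * I := by push_cast; ring
    rw [e] at h3
    exact h3

end W587.PL
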