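import Mathlib
import Pool.Agent.W587.PL.D

set_option autoImplicit false

open Complex Filter Topology Metric Set

set_option maxHeartbeats 4000000

namespace W587.PL

/-- local growth hypotheses for `F z = L (1/2 + i T + z)`: `Λ = log X`, `ℓ = log Q`. -/
structure Loc (F : ℂ → ℂ) (a δ B W Λ ℓ : ℝ) : Prop where
  diff : Differentiable ℂ F
  l0 : 0 ≤ ℓ
  lB : ℓ ≤ B * Λ
  side : ∀ x y : ℝ, |x| = a → |y| ≤ W → ‖F (x + y * I)‖ ≤ Real.exp (δ * Λ + (a - x) * ℓ / 2)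
  crude : ∀ x y : ℝ, |x| ≤ a → |y| ≤ W → ‖F (x + y * I)‖ ≤ Real.exp (B * Λ)

/-- the localised function -/
noncomputable def GG (F : ℂ → ℂ) (c Λ ℓ : ℝ) (z : ℂ) : ℂ :=
  F z * Complex.exp ((ℓ / 2 : ℝ) * z + (c * Λ : ℝ) * z ^ 2)

lemma GG_norm (F : ℂ → ℂ) (c Λ ℓ x y : ℝ) : ‖GG F c Λ ℓ (x + y * I)‖ =
    ‖F (x + y * I)‖ * Real.exp (ℓ / 2 * x + c * Λ * (x ^ 2 - y ^ 2)) := by
  unfold GG
  rw [norm_mul, Complex.norm_exp]
  congr 2
  have e : ((ℓ / 2 : ℝ) : ℂ) * (x + y * I) + ((c * Λ : ℝ) : ℂ) * (x + y * I) ^ 2 =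
      ((ℓ / 2 * x + c * Λ * (x ^ 2 - y ^ 2) : ℝ) : ℂ) + ((ℓ / 2 * y + c * Λ * (2 * x * y) : ℝ) : ℂ) * I := by
    push_cast
    linear_combination (c * Λ * y ^ 2 : ℂ) * I_sq
  rw [e, Complex.add_re, Complex.ofReal_re, Complex.re_ofReal_mul, Complex.I_re, mul_zero, add_zero]

lemma GG_diff {F : ℂ → ℂ} (hF : Differentiable ℂ F) (c Λ ℓ : ℝ) : Differentiable ℂ (GG F c Λ ℓ) := by
  unfold GG
  exact hF.mul (by fun_prop)

theorem plateau_local {ε B : ℝ} (hε : 0 < ε) (hε1 : ε ≤ 1) (hB : 1 ≤ B) :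
    ∃ a δ W Λ₀ : ℝ, 1 / 2 < a ∧ a ≤ 3 / 4 ∧ 0 < δ ∧ 0 < W ∧ 0 < Λ₀ ∧
    ∀ (F : ℂ → ℂ) (Λ ℓ : ℝ), Λ₀ ≤ Λ → Loc F a δ B W Λ ℓ → 1 ≤ ‖F 0‖ →
      ∃ y₀ : ℝ, |y₀| ≤ W ∧ ∀ b : ℝ, |b| * (max (ℓ - 4 * Real.log ‖F 0‖) 0 + ε * Λ) ≤ Real.pi →
        Real.exp (-(ε * Λ)) * ‖F 0‖ ≤ ‖F ((y₀ + b : ℝ) * I)‖ := by
  have hpi := Real.pi_pos
  have hpi3 := Real.pi_gt_three
  have hBp : 0 < B := by linarith
  set e : ℝ := ε / (64 * B) with he
  have he0 : 0 < e := by positivity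
  have heB : e * B = ε / 64 := by rw [he]; field_simp
  have he1 : e ≤ 1 / 64 := by
    rw [he, div_le_div_iff₀ (by positivity) (by norm_num)]
    nlinarith
  set a : ℝ := 1 / 2 + e with ha
  set c : ℝ := ε / 64 with hc
  have hc0 : 0 < c := by positivity
  have hc1 : c ≤ 1 / 64 := by rw [hc]; linarith
  -- the window
  set V : ℝ := (2 * B + c) / c + 1 with hV
  have hV1 : 1 ≤ V := by
    have : 0 ≤ (2 * B + c) / c := by positivity
    linarith
  have hVc : 2 * B + c ≤ c * V ^ 2 := by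
    have h1 : (2 * B + c) / c ≤ V := by rw [hV]; linarith
    have h2 : 2 * B + c ≤ c * V := by
      rw [div_le_iff₀ hc0] at h1
      linarith
    nlinarith
  set W : ℝ := V + 1 with hW
  -- the angle
  set θ : ℝ := (B + ε / 4) / (B + ε) with hθ
  have hθ0 : 0 < θ := by positivity
  have hθ1 : θ < 1 := by
    rw [hθ, div_lt_one (by positivity)]
    linarith
  set s : ℝ := Real.sin (θ * (Real.pi / 2)) with hs
  have hs1 : s < 1 := by
    have h1 : Real.sin (θ * (Real.pi / 2)) < Real.sin (Real.pi / 2) := by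
      apply Real.sin_lt_sin_of_lt_of_le_pi_div_two
      · nlinarith
      · exact le_rfl
      · nlinarith
    rwa [Real.sin_pi_div_two] at h1
  obtain ⟨N, hN⟩ := exists_nat_gt (12 / (1 - s))
  have hNpos : (0 : ℝ) < N := lt_trans (by
    have : 0 < 1 - s := by linarith
    positivity) hN
  have hN1 : 1 ≤ N := by
    have : 0 < N := by exact_mod_cast hNpos
    omega
  have hN6 : 6 / (N : ℝ) < (1 - s) / 2 := by
    have h1 : 0 < 1 - s := by linarith
    rw [div_lt_iff₀ h1] at hN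
    rw [div_lt_div_iff₀ hNpos (by norm_num)]
    linarith
  -- the threshold
  set Λ₀ : ℝ := 1 + 32 * (N * Real.pi) / ε + 4 * Real.pi / ε + 2 / (ε * (1 - s)) with hΛ₀
  have h1s : 0 < 1 - s := by linarith
  have hΛ₀p : 0 < Λ₀ := by positivity
  refine ⟨a, c, W, Λ₀, by linarith, by linarith, hc0, by linarith, hΛ₀p, ?_⟩
  intro F Λ ℓ hΛ H hF0
  have hΛ0 : 0 < Λ := lt_of_lt_of_le hΛ₀p hΛ
  have hℓ0 := H.l0
  have hℓB := H.lB
  set f : ℝ := ‖F 0‖ with hf
  have hf0 : 0 < f := by linarith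
  have hlf : 0 ≤ Real.log f := Real.log_nonneg hF0
  have hfB : Real.log f ≤ B * Λ := by
    have h1 := H.crude 0 0 (by rw [abs_zero]; linarith) (by rw [abs_zero]; linarith)
    have e0 : (((0 : ℝ) : ℂ) + ((0 : ℝ) : ℂ) * I) = 0 := by simp
    rw [e0] at h1
    rw [← Real.log_exp (B * Λ)]
    exact Real.log_le_log hf0 h1
  set G : ℂ → ℂ := GG F c Λ ℓ with hG
  have hGd : Differentiable ℂ G := GG_diff H.diff c Λ ℓ
  -- values on the imaginary axis
  have hGi : ∀ y : ℝ, ‖G (y * I)‖ = ‖F (y * I)‖ * Real.exp (-(c * Λ * y ^ 2)) := by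
    intro y
    have h1 := GG_norm F c Λ ℓ 0 y
    rw [Complex.ofReal_zero, zero_add] at h1
    rw [hG, h1]
    congr 2
    ring
  have hGle : ∀ y : ℝ, ‖G (y * I)‖ ≤ ‖F (y * I)‖ := by
    intro y
    rw [hGi]
    have : Real.exp (-(c * Λ * y ^ 2)) ≤ 1 := by
      rw [Real.exp_le_one_iff]
      have : 0 ≤ c * Λ * y ^ 2 := by positivity
      linarith
    calc ‖F (y * I)‖ * Real.exp (-(c * Λ * y ^ 2)) ≤ ‖F (y * I)‖ * 1 :=
          mul_le_mul_of_nonneg_left this (norm_nonneg _)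
      _ = _ := mul_one _
  have hG0 : ‖G ((0 : ℝ) * I)‖ = f := by
    rw [hGi]
    simp [hf]
  -- edges
  have hedge : ∀ x y : ℝ, |x| ≤ a → V ≤ |y| → |y| ≤ W → ‖G (x + y * I)‖ ≤ 1 := by
    intro x y hx hy1 hy2
    rw [hG, GG_norm]
    have h1 := H.crude x y hx hy2
    have h2 : ℓ / 2 * x + c * Λ * (x ^ 2 - y ^ 2) ≤ -(B * Λ) := by
      have h3 : x ^ 2 ≤ 1 := by
        rw [sq_le_one_iff_abs_le_one]
        linarith
      have h4 : V ^ 2 ≤ y ^ 2 := by
        rw [← sq_abs y]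
        exact pow_le_pow_left₀ (by linarith) hy1 2
      have h5 : ℓ / 2 * x ≤ B * Λ := by
        have h51 : x ≤ 1 := by linarith [le_abs_self x]
        have h52 : ℓ / 2 * x ≤ ℓ / 2 * 1 := mul_le_mul_of_nonneg_left h51 (by linarith)
        linarith
      have h6 : c * Λ * (x ^ 2 - y ^ 2) ≤ c * Λ * (1 - V ^ 2) :=
        mul_le_mul_of_nonneg_left (by linarith) (by positivity)
      have h7 : (2 * B + c) * Λ ≤ c * V ^ 2 * Λ := mul_le_mul_of_nonneg_right hVc hΛ0.le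
      have h8 : c * Λ * (1 - V ^ 2) = c * Λ - c * V ^ 2 * Λ := by ring
      have h9 : (2 * B + c) * Λ = 2 * (B * Λ) + c * Λ := by ring
      linarith
    calc ‖F (x + y * I)‖ * Real.exp (ℓ / 2 * x + c * Λ * (x ^ 2 - y ^ 2))
        ≤ Real.exp (B * Λ) * Real.exp (-(B * Λ)) :=
          mul_le_mul h1 (Real.exp_le_exp.2 h2) (Real.exp_pos _).le (Real.exp_pos _).le
      _ = 1 := by rw [← Real.exp_add]; simp
  -- the maximum
  obtain ⟨y₁, hy₁, hmax⟩ := (isCompact_Icc (a := -W) (b := W)).exists_isMaxOn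
    (nonempty_Icc.2 (by linarith)) (f := fun y : ℝ => ‖G (y * I)‖) (by
      apply Continuous.continuousOn
      exact (hGd.continuous.comp (by fun_prop)).norm)
  set M : ℝ := ‖G (y₁ * I)‖ with hM
  have hmax' : ∀ y : ℝ, |y| ≤ W → ‖G (y * I)‖ ≤ M := fun y hy => hmax (abs_le.1 hy)
  have hfM : f ≤ M := by
    rw [← hG0]
    exact hmax' 0 (by rw [abs_zero]; linarith)
  have hM1 : 1 ≤ M := hF0.trans hfM
  have hM0 : 0 < M := by linarith
  obtain ⟨y₀, hy₀, hGy₀⟩ : ∃ y₀ : ℝ, |y₀| ≤ V ∧ ‖G (y₀ * I)‖ = M := by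
    rcases le_or_gt |y₁| V with h | h
    · exact ⟨y₁, h, rfl⟩
    · have h1 := hedge 0 y₁ (by rw [abs_zero]; linarith) h.le (abs_le.2 hy₁)
      rw [Complex.ofReal_zero, zero_add] at h1
      have h2 : M = 1 := le_antisymm h1 hM1
      refine ⟨0, by rw [abs_zero]; linarith, ?_⟩
      rw [hG0, h2]
      linarith
  refine ⟨y₀, by linarith, fun b hb => ?_⟩
  by_contra hcon
  push Not at hcon
  -- the type
  set P : ℝ := max (ℓ - 4 * Real.log f) 0 with hP
  have hP0 : 0 ≤ P := le_max_right _ _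
  have hPB : P ≤ B * Λ := max_le (by linarith) (by positivity)
  set A : ℝ := Real.exp (2 * c * Λ + a * ℓ / 2) with hA
  have hA1 : 1 ≤ A := Real.one_le_exp (by positivity)
  have hlA : Real.log A = 2 * c * Λ + a * ℓ / 2 := Real.log_exp _
  set τ : ℝ := (P + ε / 4 * Λ) / 2 with hτ
  have hτ0 : 0 < τ := by positivity
  have ha0 : 0 < a := by linarith
  have ha2 : 1 / a ≤ 2 := by
    rw [div_le_iff₀ ha0]; linarith
  have htype : (Real.log A - Real.log M) / a ≤ τ := by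
    rw [hlA, div_le_iff₀ ha0]
    have h1 : Real.log f ≤ Real.log M := Real.log_le_log hf0 hfM
    have h2 : ℓ - 4 * Real.log f ≤ P := le_max_left _ _
    -- want: 2cΛ + aℓ/2 - log M ≤ τ a
    have h3 : τ * a = (P + ε / 4 * Λ) / 2 * a := by rw [hτ]
    rw [h3]
    have h4 : (ℓ - 4 * Real.log f) * a ≤ P * a := mul_le_mul_of_nonneg_right h2 ha0.le
    have h5 : (2 * a - 1) * Real.log f ≤ 2 * e * (B * Λ) := by
      have : 2 * a - 1 = 2 * e := by rw [ha]; ring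
      rw [this]
      exact mul_le_mul_of_nonneg_left hfB (by positivity)
    have h6 : 2 * e * (B * Λ) = ε / 32 * Λ := by
      rw [show 2 * e * (B * Λ) = 2 * (e * B) * Λ by ring, heB]; ring
    have h7 : ε / 4 * Λ / 2 * (1 / 2) ≤ ε / 4 * Λ / 2 * a :=
      mul_le_mul_of_nonneg_left (by linarith) (by positivity)
    have h8 : 2 * c * Λ = ε / 32 * Λ := by rw [hc]; ring
    have h9 : 0 < ε * Λ := by positivity
    have h10 : (ℓ - 4 * Real.log f) * a = a * ℓ - 2 * Real.log f - 2 * ((2 * a - 1) * Real.log f) := by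
      ring
    have h11 : (P + ε / 4 * Λ) / 2 * a = P * a / 2 + ε / 4 * Λ / 2 * a := by ring
    rw [h11, h8]
    have h12 : ε / 4 * Λ / 2 * (1 / 2) = ε * Λ / 16 := by ring
    have h13 : ε / 32 * Λ = ε * Λ / 32 := by ring
    rw [h13] at h6 ⊢
    linarith
  have hbox : ∀ x y : ℝ, |x| ≤ a → |y| ≤ W → ‖G (x + y * I)‖ ≤ M * Real.exp (τ * |x|) := by
    intro x y hx hy
    have h1 := box hGd ha0 (by linarith : (0:ℝ) < W) hM1 hA1 hmax' (fun x y hx hy => by
      rw [hG, GG_norm]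
      have h2 := H.side x y hx hy
      have h3 : x ^ 2 ≤ 1 := by
        rw [sq_le_one_iff_abs_le_one, hx]; linarith
      have h31 : 0 ≤ y ^ 2 := sq_nonneg y
      have h4 : c * Λ * (x ^ 2 - y ^ 2) ≤ c * Λ * 1 :=
        mul_le_mul_of_nonneg_left (by linarith) (by positivity)
      rw [hA]
      calc ‖F (x + y * I)‖ * Real.exp (ℓ / 2 * x + c * Λ * (x ^ 2 - y ^ 2))
          ≤ Real.exp (c * Λ + (a - x) * ℓ / 2) * Real.exp (ℓ / 2 * x + c * Λ * 1) :=
            mul_le_mul h2 (Real.exp_le_exp.2 (by linarith)) (Real.exp_pos _).le (Real.exp_pos _).le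
        _ = _ := by rw [← Real.exp_add]; congr 1; ring) (fun x y hx hy =>
      hedge x y hx (by rw [hy]; linarith) hy.le) hx hy
    refine h1.trans ?_
    apply mul_le_mul_of_nonneg_left _ hM0.le
    apply Real.exp_le_exp.2
    rw [mul_comm τ]
    exact mul_le_mul_of_nonneg_left htype (abs_nonneg x)
  -- sizes
  have hεΛ : 0 < ε * Λ := by positivity
  have hb1 : τ * |b| ≤ θ * (Real.pi / 2) := by
    have h1 : τ = (P + ε / 4 * Λ) / (P + ε * Λ) * ((P + ε * Λ) / 2) := by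
      rw [hτ]; field_simp
    have h2 : (P + ε / 4 * Λ) / (P + ε * Λ) ≤ θ := by
      rw [hθ, div_le_div_iff₀ (by positivity) (by positivity)]
      have h21 : 0 ≤ ε * (B * Λ - P) := mul_nonneg hε.le (by linarith)
      linarith
    have h3 : (P + ε * Λ) / 2 * |b| ≤ Real.pi / 2 := by linarith
    calc τ * |b| = (P + ε / 4 * Λ) / (P + ε * Λ) * ((P + ε * Λ) / 2 * |b|) := by
          conv_lhs => rw [h1]
          ring
      _ ≤ θ * (Real.pi / 2) := mul_le_mul h2 h3 (by positivity) hθ0.le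
  have hθpi : θ * (Real.pi / 2) < 1 * (Real.pi / 2) :=
    mul_lt_mul_of_pos_right hθ1 (by positivity)
  have hb2 : τ * |b| < Real.pi / 2 := by
    refine lt_of_le_of_lt hb1 ?_
    linarith
  have hbs : |b| ≤ 1 / 4 := by
    have h1 : |b| * (ε * Λ) ≤ Real.pi := by
      refine le_trans (mul_le_mul_of_nonneg_left ?_ (abs_nonneg b)) hb
      linarith
    have h2 : 4 * Real.pi / ε ≤ Λ := by
      refine le_trans ?_ hΛ
      have h3 : 0 ≤ 32 * (N * Real.pi) / ε := by positivity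
      have h4 : 0 ≤ 2 / (ε * (1 - s)) := by positivity
      rw [hΛ₀]; linarith
    have h3 : 4 * Real.pi ≤ Λ * ε := by rwa [div_le_iff₀ hε] at h2
    by_contra h4
    push Not at h4
    have h5 := mul_lt_mul_of_pos_right h4 hεΛ
    linarith
  have hNτ : N * Real.pi / τ ≤ 1 / 4 := by
    rw [div_le_iff₀ hτ0]
    have h2 : 32 * (N * Real.pi) / ε ≤ Λ := by
      refine le_trans ?_ hΛ
      have h3 : 0 ≤ 4 * Real.pi / ε := by positivity
      have h4 : 0 ≤ 2 / (ε * (1 - s)) := by positivity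
      rw [hΛ₀]; linarith
    rw [div_le_iff₀ hε] at h2
    rw [hτ]
    linarith
  have hLS := LS (g := fun w => G ((y₀ + w) * I)) (hGd.comp (by fun_prop)) hτ0 hM0 hb2 hN1 (fun w hw => by
    have h1 : ‖w‖ ≤ 1 / 2 := by
      refine hw.trans ?_
      rw [add_div, mul_div_cancel_left₀ _ hτ0.ne']
      linarith
    have e : ((y₀ : ℂ) + w) * I = ((-w.im : ℝ) : ℂ) + ((y₀ + w.re : ℝ) : ℂ) * I := by
      apply Complex.ext <;> simp
    show ‖G (((y₀ : ℂ) + w) * I)‖ ≤ _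
    rw [e]
    have h2 := hbox (-w.im) (y₀ + w.re) (by
      rw [abs_neg]
      have := Complex.abs_im_le_norm w
      linarith) (by
      have h3 := Complex.abs_re_le_norm w
      have h4 := abs_add_le y₀ w.re
      linarith)
    rwa [abs_neg] at h2)
  simp only [add_zero] at hLS
  rw [hGy₀] at hLS
  have hGb : ‖G ((y₀ + (b : ℂ)) * I)‖ ≤ Real.exp (-(ε * Λ)) * M := by
    have h1 := hGle (y₀ + b)
    rw [Complex.ofReal_add] at h1 hcon
    calc ‖G ((y₀ + (b : ℂ)) * I)‖ ≤ ‖F ((y₀ + (b : ℂ)) * I)‖ := h1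
      _ ≤ Real.exp (-(ε * Λ)) * f := hcon.le
      _ ≤ _ := mul_le_mul_of_nonneg_left hfM (Real.exp_pos _).le
  have hsin : Real.sin (τ * |b|) ≤ s := by
    rw [hs]
    apply Real.sin_le_sin_of_le_of_le_pi_div_two
    · have : 0 ≤ τ * |b| := by positivity
      linarith
    · linarith
    · exact hb1
  have hexp : Real.exp (-(ε * Λ)) < (1 - s) / 2 := by
    have h2 : 2 / (ε * (1 - s)) < Λ := by
      refine lt_of_lt_of_le ?_ hΛ
      have h3 : 0 ≤ 4 * Real.pi / ε := by positivity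
      have h4 : 0 ≤ 32 * (N * Real.pi) / ε := by positivity
      rw [hΛ₀]; linarith
    rw [div_lt_iff₀ (by positivity)] at h2
    have h3 : 1 + ε * Λ ≤ Real.exp (ε * Λ) := by
      have := Real.add_one_le_exp (ε * Λ)
      linarith
    rw [Real.exp_neg, inv_lt_comm₀ (Real.exp_pos _) (by linarith)]
    rw [inv_div, div_lt_iff₀ h1s]
    have h5 := mul_le_mul_of_nonneg_right h3 h1s.le
    linarith
  have hfin : M ≤ Real.exp (-(ε * Λ)) * M + M * (s + 6 / N) := by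
    refine hLS.trans (add_le_add hGb ?_)
    exact mul_le_mul_of_nonneg_left (by linarith) hM0.le
  have hfin1 : Real.exp (-(ε * Λ)) * M < (1 - s) / 2 * M := mul_lt_mul_of_pos_right hexp hM0
  have hfin2 : M * (6 / N) < M * ((1 - s) / 2) := mul_lt_mul_of_pos_left hN6 hM0
  linarith

end W587.PL
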