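import Mathlib
import Pool.Agent.W587.PL.E

set_option autoImplicit false

open Complex Filter Topology Metric Set

set_option maxHeartbeats 4000000

namespace W587.PL

variable {ι : Type*}

/-- families with a conductor `X` and a local conductor `Q` -/
structure Fam2 (L : ι → ℂ → ℂ) (X Q : ι → ℝ → ℝ) : Prop where
  X1 : ∀ i t, 1 ≤ X i t
  Q1 : ∀ i t, 1 ≤ Q i t
  Xs : ∃ m : ℝ, 0 ≤ m ∧ ∀ i t u, X i (t + u) ≤ (1 + |u|) ^ m * X i t
  Qs : ∃ m : ℝ, 0 ≤ m ∧ ∀ i t u, Q i (t + u) ≤ (1 + |u|) ^ m * Q i t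
  QX : ∃ B : ℝ, 0 ≤ B ∧ ∀ i t, Q i t ≤ X i t ^ B
  diff : ∀ i, Differentiable ℂ (L i)
  right : ∀ δ : ℝ, 0 < δ → ∃ B : ℝ, ∀ i (s : ℂ), 1 + δ ≤ s.re → ‖L i s‖ ≤ B * X i s.im ^ δ
  refl : ∃ C : ℝ, 0 ≤ C ∧ ∀ i (x t : ℝ), 0 ≤ x → x ≤ 3 / 4 →
    ‖L i ⟨1 / 2 - x, t⟩‖ ≤ C * Q i t ^ x * ‖L i ⟨1 / 2 + x, t⟩‖
  crude : ∃ C B : ℝ, 0 ≤ C ∧ 0 ≤ B ∧ ∀ i (s : ℂ), -1 / 4 ≤ s.re → ‖L i s‖ ≤ C * X i s.im ^ B

variable {L : ι → ℂ → ℂ} {X Q : ι → ℝ → ℝ}

/-- `L (1/2 + i T + z)` -/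
noncomputable def shf (L : ι → ℂ → ℂ) (i : ι) (T : ℝ) (z : ℂ) : ℂ := L i (1 / 2 + T * I + z)

lemma shf_zero (i : ι) (T : ℝ) : shf L i T 0 = L i (1 / 2 + T * I) := by
  unfold shf; rw [add_zero]

lemma shf_eq (i : ι) (T x y : ℝ) : shf L i T (x + y * I) = L i ⟨1 / 2 + x, T + y⟩ := by
  unfold shf
  congr 1
  apply Complex.ext <;> simp

/-- `exp C ≤ exp (δ Λ)` for large `Λ` -/
lemma Fam2.loc (H : Fam2 L X Q) : ∃ B : ℝ, 1 ≤ B ∧ ∀ a δ W : ℝ, 1 / 2 < a → a ≤ 3 / 4 → 0 < δ → 0 < W →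
    ∃ Λ₁ : ℝ, ∀ (i : ι) (T : ℝ), Λ₁ ≤ Real.log (X i T) →
      Loc (shf L i T) a δ B W (Real.log (X i T)) (Real.log (Q i T)) := by
  obtain ⟨mX, hmX, hXs⟩ := H.Xs
  obtain ⟨mQ, hmQ, hQs⟩ := H.Qs
  obtain ⟨BQ, hBQ, hQX⟩ := H.QX
  obtain ⟨CR, hCR, hrefl⟩ := H.refl
  obtain ⟨CC, BC, hCC, hBC, hcr⟩ := H.crude
  refine ⟨1 + BQ + BC, by linarith, fun a δ W ha ha' hδ hW => ?_⟩
  set δ' : ℝ := min (a - 1 / 2) (δ / 2) with hδ'
  have hδ'0 : 0 < δ' := lt_min (by linarith) (by linarith)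
  have hδ'1 : δ' ≤ a - 1 / 2 := min_le_left _ _
  have hδ'2 : δ' ≤ δ / 2 := min_le_right _ _
  obtain ⟨BR, hBR⟩ := H.right δ' hδ'0
  set PW : ℝ := (1 + W) ^ mX with hPW
  set QW : ℝ := (1 + W) ^ mQ with hQW
  have hPW1 : 1 ≤ PW := Real.one_le_rpow (by linarith) hmX
  have hQW1 : 1 ≤ QW := Real.one_le_rpow (by linarith) hmQ
  -- constants
  set K₁ : ℝ := (1 + |BR|) * PW * (1 + CR) * QW with hK₁
  set K₂ : ℝ := (1 + CC) * PW ^ BC with hK₂
  have hb : 0 ≤ |BR| := abs_nonneg _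
  have hPB1 : 1 ≤ PW ^ BC := Real.one_le_rpow hPW1 hBC
  have hK₁1 : 1 ≤ K₁ := by
    have h1 : 1 ≤ (1 + |BR|) * PW := by nlinarith
    have h2 : 1 ≤ (1 + |BR|) * PW * (1 + CR) := by nlinarith
    rw [hK₁]; nlinarith
  have hK₂1 : 1 ≤ K₂ := by rw [hK₂]; nlinarith
  refine ⟨2 / δ * Real.log K₁ + Real.log K₂, fun i T hΛ => ?_⟩
  have hX1 := H.X1 i T
  have hXp : 0 < X i T := by linarith
  have hQ1 := H.Q1 i T
  have hQp : 0 < Q i T := by linarith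
  set Λ : ℝ := Real.log (X i T) with hΛd
  set ℓ : ℝ := Real.log (Q i T) with hℓd
  have hΛ0 : 0 ≤ Λ := Real.log_nonneg hX1
  have hℓ0 : 0 ≤ ℓ := Real.log_nonneg hQ1
  have hlK₁ : 0 ≤ Real.log K₁ := Real.log_nonneg hK₁1
  have hlK₂ : 0 ≤ Real.log K₂ := Real.log_nonneg hK₂1
  have hΛ1 : Real.log K₁ ≤ δ / 2 * Λ := by
    have h1 : 2 / δ * Real.log K₁ ≤ Λ := by linarith
    have h2 : δ / 2 * (2 / δ * Real.log K₁) ≤ δ / 2 * Λ := mul_le_mul_of_nonneg_left h1 (by linarith)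
    have h3 : δ / 2 * (2 / δ * Real.log K₁) = Real.log K₁ := by field_simp
    linarith
  have hΛ2 : Real.log K₂ ≤ Λ := by
    have : 0 ≤ 2 / δ * Real.log K₁ := by positivity
    linarith
  have hK₁e : K₁ ≤ Real.exp (δ / 2 * Λ) := by
    rw [← Real.log_le_iff_le_exp (by linarith)]
    exact hΛ1
  have hK₂e : K₂ ≤ Real.exp Λ := by
    rw [← Real.log_le_iff_le_exp (by linarith)]
    exact hΛ2
  have hXexp : ∀ p : ℝ, X i T ^ p = Real.exp (p * Λ) := fun p => by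
    rw [Real.rpow_def_of_pos hXp, mul_comm]
  have hQexp : ∀ p : ℝ, Q i T ^ p = Real.exp (p * ℓ) := fun p => by
    rw [Real.rpow_def_of_pos hQp, mul_comm]
  have hXy : ∀ y : ℝ, |y| ≤ W → X i (T + y) ≤ PW * X i T := by
    intro y hy
    refine (hXs i T y).trans ?_
    refine mul_le_mul_of_nonneg_right ?_ hXp.le
    exact Real.rpow_le_rpow (by positivity) (by linarith) hmX
  have hQy : ∀ y : ℝ, |y| ≤ W → Q i (T + y) ≤ QW * Q i T := by
    intro y hy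
    refine (hQs i T y).trans ?_
    refine mul_le_mul_of_nonneg_right ?_ hQp.le
    exact Real.rpow_le_rpow (by positivity) (by linarith) hmQ
  -- the right edge
  have hright : ∀ y : ℝ, |y| ≤ W → ‖L i ⟨1 / 2 + a, T + y⟩‖ ≤ (1 + |BR|) * PW * Real.exp (δ / 2 * Λ) := by
    intro y hy
    have h1 := hBR i ⟨1 / 2 + a, T + y⟩ (by show 1 + δ' ≤ 1 / 2 + a; linarith)
    have h2 : (⟨1 / 2 + a, T + y⟩ : ℂ).im = T + y := rfl
    rw [h2] at h1
    have hXT := H.X1 i (T + y)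
    have h3 : X i (T + y) ^ δ' ≤ PW * Real.exp (δ / 2 * Λ) := by
      calc X i (T + y) ^ δ' ≤ (PW * X i T) ^ δ' :=
            Real.rpow_le_rpow (by linarith) (hXy y hy) hδ'0.le
        _ = PW ^ δ' * X i T ^ δ' := Real.mul_rpow (by linarith) hXp.le
        _ ≤ PW ^ (1 : ℝ) * Real.exp (δ / 2 * Λ) := by
            apply mul_le_mul
            · exact Real.rpow_le_rpow_of_exponent_le hPW1 (by linarith)
            · rw [hXexp]
              exact Real.exp_le_exp.2 (mul_le_mul_of_nonneg_right hδ'2 hΛ0)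
            · positivity
            · positivity
        _ = _ := by rw [Real.rpow_one]
    have h4 : 0 ≤ X i (T + y) ^ δ' := Real.rpow_nonneg (by linarith) _
    calc ‖L i ⟨1 / 2 + a, T + y⟩‖ ≤ BR * X i (T + y) ^ δ' := h1
      _ ≤ (1 + |BR|) * X i (T + y) ^ δ' :=
          mul_le_mul_of_nonneg_right (by linarith [le_abs_self BR]) h4
      _ ≤ (1 + |BR|) * (PW * Real.exp (δ / 2 * Λ)) := mul_le_mul_of_nonneg_left h3 (by linarith)
      _ = _ := by ring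
  have hKr : (1 + |BR|) * PW ≤ K₁ := by
    have h2 : (1 + |BR|) * PW * 1 ≤ (1 + |BR|) * PW * (1 + CR) :=
      mul_le_mul_of_nonneg_left (by linarith) (by positivity)
    have h3 : (1 + |BR|) * PW * (1 + CR) * 1 ≤ (1 + |BR|) * PW * (1 + CR) * QW :=
      mul_le_mul_of_nonneg_left hQW1 (by positivity)
    rw [hK₁]; linarith
  refine ⟨?_, hℓ0, ?_, ?_, ?_⟩
  · unfold shf
    exact (H.diff i).comp (by fun_prop)
  · have h1 := Real.log_le_log hQp (hQX i T)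
    rw [Real.log_rpow hXp] at h1
    have h2 : 0 ≤ (1 + BC) * Λ := by positivity
    linarith [show (1 + BQ + BC) * Λ = BQ * Λ + (1 + BC) * Λ by ring]
  · intro x y hx hy
    rw [shf_eq]
    rcases abs_eq (by linarith : (0:ℝ) ≤ a) |>.1 hx with h | h
    · rw [h, sub_self, zero_mul, zero_div, add_zero]
      refine (hright y hy).trans ?_
      calc (1 + |BR|) * PW * Real.exp (δ / 2 * Λ) ≤ Real.exp (δ / 2 * Λ) * Real.exp (δ / 2 * Λ) :=
            mul_le_mul_of_nonneg_right (hKr.trans hK₁e) (Real.exp_pos _).le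
        _ = _ := by rw [← Real.exp_add]; congr 1; ring
    · have h1 := hrefl i a (T + y) (by linarith) ha'
      have e : (⟨1 / 2 + x, T + y⟩ : ℂ) = ⟨1 / 2 - a, T + y⟩ := by rw [h, sub_eq_add_neg]
      rw [e, h]
      refine h1.trans ?_
      have h2 : Q i (T + y) ^ a ≤ QW * Real.exp (a * ℓ) := by
        calc Q i (T + y) ^ a ≤ (QW * Q i T) ^ a :=
              Real.rpow_le_rpow (by linarith [H.Q1 i (T + y)]) (hQy y hy) (by linarith)
          _ = QW ^ a * Q i T ^ a := Real.mul_rpow (by linarith) hQp.le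
          _ ≤ QW ^ (1 : ℝ) * Real.exp (a * ℓ) := by
              apply mul_le_mul
              · exact Real.rpow_le_rpow_of_exponent_le hQW1 (by linarith)
              · rw [hQexp]
              · positivity
              · positivity
          _ = _ := by rw [Real.rpow_one]
      have h3 := hright y hy
      have h20 : 0 ≤ Q i (T + y) ^ a := Real.rpow_nonneg (by linarith [H.Q1 i (T + y)]) _
      calc CR * Q i (T + y) ^ a * ‖L i ⟨1 / 2 + a, T + y⟩‖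
          ≤ ((1 + CR) * (QW * Real.exp (a * ℓ))) * ((1 + |BR|) * PW * Real.exp (δ / 2 * Λ)) := by
            apply mul_le_mul _ h3 (norm_nonneg _) (by positivity)
            apply mul_le_mul (by linarith) h2 h20 (by linarith)
        _ = K₁ * (Real.exp (a * ℓ) * Real.exp (δ / 2 * Λ)) := by rw [hK₁]; ring
        _ ≤ Real.exp (δ / 2 * Λ) * (Real.exp (a * ℓ) * Real.exp (δ / 2 * Λ)) :=
            mul_le_mul_of_nonneg_right hK₁e (by positivity)
        _ = _ := by rw [← Real.exp_add, ← Real.exp_add]; congr 1; ring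
  · intro x y hx hy
    rw [shf_eq]
    have hx' := abs_le.1 hx
    have h1 := hcr i ⟨1 / 2 + x, T + y⟩ (by show -1 / 4 ≤ 1 / 2 + x; linarith)
    have h2 : (⟨1 / 2 + x, T + y⟩ : ℂ).im = T + y := rfl
    rw [h2] at h1
    have hXT := H.X1 i (T + y)
    have h3 : X i (T + y) ^ BC ≤ PW ^ BC * Real.exp (BC * Λ) := by
      calc X i (T + y) ^ BC ≤ (PW * X i T) ^ BC := Real.rpow_le_rpow (by linarith) (hXy y hy) hBC
        _ = PW ^ BC * X i T ^ BC := Real.mul_rpow (by linarith) hXp.le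
        _ = _ := by rw [hXexp]
    have h4 : 0 ≤ X i (T + y) ^ BC := Real.rpow_nonneg (by linarith) _
    have h5 : 0 ≤ BQ * Λ := by positivity
    calc ‖L i ⟨1 / 2 + x, T + y⟩‖ ≤ CC * X i (T + y) ^ BC := h1
      _ ≤ (1 + CC) * (PW ^ BC * Real.exp (BC * Λ)) := mul_le_mul (by linarith) h3 h4 (by linarith)
      _ = K₂ * Real.exp (BC * Λ) := by rw [hK₂]; ring
      _ ≤ Real.exp Λ * Real.exp (BC * Λ) := mul_le_mul_of_nonneg_right hK₂e (Real.exp_pos _).le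
      _ = Real.exp (Λ + BC * Λ) := by rw [← Real.exp_add]
      _ ≤ _ := Real.exp_le_exp.2 (by linarith)

end W587.PL
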