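import Mathlib
import Pool.Agent.W587.PL.F

set_option autoImplicit false

open Complex Filter Topology Metric Set

set_option maxHeartbeats 4000000

namespace W587.PL

/-- the convexity bound -/
theorem convex_local {ε B : ℝ} (hε : 0 < ε) (hε1 : ε ≤ 1) (hB : 1 ≤ B) :
    ∃ a δ W : ℝ, 1 / 2 < a ∧ a ≤ 3 / 4 ∧ 0 < δ ∧ 0 < W ∧
    ∀ (F : ℂ → ℂ) (Λ ℓ : ℝ), 0 ≤ Λ → Loc F a δ B W Λ ℓ →
      ‖F 0‖ ≤ Real.exp (ε * Λ + ℓ / 4) := by
  have hBp : 0 < B := by linarith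
  set e : ℝ := ε / (64 * B) with he
  have he0 : 0 < e := by positivity
  have heB : e * B = ε / 64 := by rw [he]; field_simp
  have he1 : e ≤ 1 / 64 := by
    rw [he, div_le_div_iff₀ (by positivity) (by norm_num)]
    nlinarith
  set a : ℝ := 1 / 2 + e with ha
  set c : ℝ := ε / 64 with hc
  have hc0 : 0 < c := by positivity
  set V : ℝ := (2 * B + c) / c + 1 with hV
  have hV1 : 1 ≤ V := by
    have : 0 ≤ (2 * B + c) / c := by positivity
    linarith
  have hVc : 2 * B + c ≤ c * V ^ 2 := by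
    have h1 : (2 * B + c) / c ≤ V := by rw [hV]; linarith
    have h2 : 2 * B + c ≤ c * V := by
      rw [div_le_iff₀ hc0] at h1
      linarith
    nlinarith
  refine ⟨a, c, V, by linarith, by linarith, hc0, by linarith, ?_⟩
  intro F Λ ℓ hΛ0 H
  have hℓ0 := H.l0
  have hℓB := H.lB
  set G : ℂ → ℂ := GG F c Λ ℓ with hG
  have hGd : Differentiable ℂ G := GG_diff H.diff c Λ ℓ
  have hG0 : ‖G 0‖ = ‖F 0‖ := by
    rw [hG]; unfold GG; simp
  have hedge : ∀ x y : ℝ, |x| ≤ a → |y| = V → ‖G (x + y * I)‖ ≤ 1 := by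
    intro x y hx hy
    rw [hG, GG_norm]
    have h1 := H.crude x y hx hy.le
    have h2 : ℓ / 2 * x + c * Λ * (x ^ 2 - y ^ 2) ≤ -(B * Λ) := by
      have h3 : x ^ 2 ≤ 1 := by
        rw [sq_le_one_iff_abs_le_one]
        linarith
      have h4 : V ^ 2 = y ^ 2 := by
        rw [← sq_abs y, hy]
      have h5 : ℓ / 2 * x ≤ B * Λ := by
        have h51 : x ≤ 1 := by linarith [le_abs_self x]
        have h52 : ℓ / 2 * x ≤ ℓ / 2 * 1 := mul_le_mul_of_nonneg_left h51 (by linarith)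
        linarith
      have h6 : c * Λ * (x ^ 2 - y ^ 2) ≤ c * Λ * (1 - V ^ 2) :=
        mul_le_mul_of_nonneg_left (by linarith) (by positivity)
      have h7 : (2 * B + c) * Λ ≤ c * V ^ 2 * Λ := mul_le_mul_of_nonneg_right hVc hΛ0
      have h8 : c * Λ * (1 - V ^ 2) = c * Λ - c * V ^ 2 * Λ := by ring
      have h9 : (2 * B + c) * Λ = 2 * (B * Λ) + c * Λ := by ring
      linarith
    calc ‖F (x + y * I)‖ * Real.exp (ℓ / 2 * x + c * Λ * (x ^ 2 - y ^ 2))
        ≤ Real.exp (B * Λ) * Real.exp (-(B * Λ)) :=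
          mul_le_mul h1 (Real.exp_le_exp.2 h2) (Real.exp_pos _).le (Real.exp_pos _).le
      _ = 1 := by rw [← Real.exp_add]; simp
  have ha0 : 0 < a := by linarith
  set A : ℝ := Real.exp (2 * c * Λ + a * ℓ / 2) with hA
  have hA1 : 1 ≤ A := Real.one_le_exp (by positivity)
  have hside : ∀ x y : ℝ, |x| = a → |y| ≤ V → ‖G (x + y * I)‖ ≤ A := by
    intro x y hx hy
    rw [hG, GG_norm]
    have h2 := H.side x y hx hy
    have h3 : x ^ 2 ≤ 1 := by
      rw [sq_le_one_iff_abs_le_one, hx]; linarith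
    have h31 : 0 ≤ y ^ 2 := sq_nonneg y
    have h4 : c * Λ * (x ^ 2 - y ^ 2) ≤ c * Λ * 1 :=
      mul_le_mul_of_nonneg_left (by linarith) (by positivity)
    rw [hA]
    calc ‖F (x + y * I)‖ * Real.exp (ℓ / 2 * x + c * Λ * (x ^ 2 - y ^ 2))
        ≤ Real.exp (c * Λ + (a - x) * ℓ / 2) * Real.exp (ℓ / 2 * x + c * Λ * 1) :=
          mul_le_mul h2 (Real.exp_le_exp.2 (by linarith)) (Real.exp_pos _).le (Real.exp_pos _).le
      _ = _ := by rw [← Real.exp_add]; congr 1; ring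
  have hbox := box_pos (G := fun z => G (z - a)) (hGd.comp (by fun_prop)) (a := 2 * a) (V := V)
    (M := A) (A := A) (by linarith) (by linarith) hA1 hA1 (fun y hy => by
      have := hside (-a) y (by rw [abs_neg, abs_of_pos ha0]) hy
      have e : ((y : ℂ) * I - a) = ((-a : ℝ) : ℂ) + y * I := by push_cast; ring
      rw [e]
      exact this) (fun y hy => by
      have := hside a y (abs_of_pos ha0) hy
      have e : (((2 * a : ℝ) : ℂ) + y * I - a) = (a : ℂ) + y * I := by push_cast; ring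
      rw [e]
      exact this) (fun x y hx0 hx1 hy => by
      have := hedge (x - a) y (by rw [abs_le]; constructor <;> linarith) hy
      have e : ((x : ℂ) + y * I - a) = ((x - a : ℝ) : ℂ) + y * I := by push_cast; ring
      rw [e]
      exact this) (x := a) (y := 0) (by linarith) (by linarith) (by rw [abs_zero]; linarith)
  simp only [Complex.ofReal_zero, zero_mul, add_zero, sub_self, zero_div, mul_zero, Real.exp_zero,
    mul_one] at hbox
  rw [hG0] at hbox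
  refine hbox.trans (Real.exp_le_exp.2 ?_)
  have h1 : e * ℓ ≤ e * (B * Λ) := mul_le_mul_of_nonneg_left hℓB he0.le
  have h2 : e * (B * Λ) = ε / 64 * Λ := by rw [← mul_assoc, heB]
  have h3 : 2 * c * Λ + a * ℓ / 2 = ε / 32 * Λ + ℓ / 4 + e * ℓ / 2 := by
    rw [hc, ha]; ring
  rw [h3]
  have h4 : 0 ≤ ε * Λ := by positivity
  linarith

variable {ι : Type*} {L : ι → ℂ → ℂ} {X Q : ι → ℝ → ℝ}

/-- **plateaus** -/
theorem Fam2.plateaus (H : Fam2 L X Q) {ε : ℝ} (hε : 0 < ε) : ∃ W X₀ : ℝ, 0 ≤ W ∧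
    ∀ (i : ι) (T : ℝ), X₀ ≤ X i T → 1 ≤ ‖L i (1 / 2 + T * I)‖ →
      0 < Real.log (Q i T) - 4 * Real.log ‖L i (1 / 2 + T * I)‖ + ε * Real.log (X i T) ∧
      ∃ T₀ : ℝ, |T₀ - T| ≤ W ∧ ∀ t : ℝ,
        |t - T₀| ≤ Real.pi / (Real.log (Q i T) - 4 * Real.log ‖L i (1 / 2 + T * I)‖ +
          ε * Real.log (X i T)) →
        X i T ^ (-ε) * ‖L i (1 / 2 + T * I)‖ ≤ ‖L i (1 / 2 + t * I)‖ := by
  obtain ⟨B, hB, hloc⟩ := H.loc
  set ε₁ : ℝ := min ε 1 / 2 with hε₁
  have hm1 : min ε 1 ≤ 1 := min_le_right _ _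
  have hm2 : min ε 1 ≤ ε := min_le_left _ _
  have hm0 : 0 < min ε 1 := lt_min hε one_pos
  have hε₁0 : 0 < ε₁ := by rw [hε₁]; linarith
  have hε₁1 : ε₁ ≤ 1 := by rw [hε₁]; linarith
  have hε₁2 : 2 * ε₁ ≤ ε := by rw [hε₁]; linarith
  obtain ⟨a, δ, W, Λ₀, ha, ha', hδ, hW, hΛ₀, hpl⟩ := plateau_local hε₁0 hε₁1 hB
  obtain ⟨a₂, δ₂, W₂, ha₂, ha₂', hδ₂, hW₂, hcv⟩ := convex_local (ε := ε₁ / 4) (by linarith) (by linarith) hB
  obtain ⟨Λ₁, hΛ₁⟩ := hloc a δ W ha ha' hδ hW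
  obtain ⟨Λ₂, hΛ₂⟩ := hloc a₂ δ₂ W₂ ha₂ ha₂' hδ₂ hW₂
  refine ⟨W, Real.exp (Λ₀ + |Λ₁| + |Λ₂|), hW.le, fun i T hX hV => ?_⟩
  have hX1 := H.X1 i T
  have hXp : 0 < X i T := by linarith
  set Λ : ℝ := Real.log (X i T) with hΛd
  set ℓ : ℝ := Real.log (Q i T) with hℓd
  have hΛ : Λ₀ + |Λ₁| + |Λ₂| ≤ Λ := by
    have := Real.log_le_log (Real.exp_pos _) hX
    rwa [Real.log_exp] at this
  have hb1 := le_abs_self Λ₁
  have hb2 := le_abs_self Λ₂
  have hb3 := abs_nonneg Λ₁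
  have hb4 := abs_nonneg Λ₂
  have hΛp : 0 < Λ := by linarith
  have hL1 := hΛ₁ i T (by linarith)
  have hL2 := hΛ₂ i T (by linarith)
  set V : ℝ := ‖L i (1 / 2 + T * I)‖ with hVd
  have hV0 : 0 < V := by linarith
  have hcx := hcv _ _ _ hΛp.le hL2
  rw [shf_zero, ← hVd] at hcx
  have hlV : Real.log V ≤ ε₁ / 4 * Λ + ℓ / 4 := (Real.log_le_iff_le_exp hV0).2 hcx
  have hpos : ε₁ * Λ + max (ℓ - 4 * Real.log V) 0 ≤ ℓ - 4 * Real.log V + ε * Λ := by
    have h1 : 2 * ε₁ * Λ ≤ ε * Λ := mul_le_mul_of_nonneg_right hε₁2 hΛp.le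
    have h2 : 0 ≤ ε₁ * Λ := by positivity
    rcases max_cases (ℓ - 4 * Real.log V) 0 with ⟨h, _⟩ | ⟨h, _⟩ <;> rw [h] <;> linarith
  have hmx : 0 ≤ max (ℓ - 4 * Real.log V) 0 := le_max_right _ _
  have hε₁Λ : 0 < ε₁ * Λ := by positivity
  have hD0 : 0 < ℓ - 4 * Real.log V + ε * Λ := by linarith
  refine ⟨hD0, ?_⟩
  obtain ⟨y₀, hy₀, hb⟩ := hpl _ _ _ (by linarith) hL1 (by rw [shf_zero]; exact hV)
  rw [shf_zero, ← hVd] at hb
  refine ⟨T + y₀, by rw [add_sub_cancel_left]; exact hy₀, fun t ht => ?_⟩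
  rw [le_div_iff₀ hD0] at ht
  have h1 := hb (t - (T + y₀)) (by
    refine le_trans (mul_le_mul_of_nonneg_left ?_ (abs_nonneg _)) ht
    linarith)
  have e1 : (((y₀ + (t - (T + y₀)) : ℝ) : ℂ) * I) = ((0 : ℝ) : ℂ) + ((t - T : ℝ) : ℂ) * I := by
    push_cast; ring
  rw [e1, shf_eq] at h1
  have e2 : (⟨1 / 2 + 0, T + (t - T)⟩ : ℂ) = 1 / 2 + t * I := by
    apply Complex.ext <;> simp
  rw [e2] at h1
  refine le_trans (mul_le_mul_of_nonneg_right ?_ hV0.le) h1
  rw [Real.rpow_def_of_pos hXp, Real.exp_le_exp]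
  have h3 : 2 * ε₁ * Λ ≤ ε * Λ := mul_le_mul_of_nonneg_right hε₁2 hΛp.le
  rw [← hΛd]
  linarith [show Λ * -ε = -(ε * Λ) by ring]

/-- the sampling hypothesis -/
def Sampled (L : ι → ℂ → ℂ) (X Q : ι → ℝ → ℝ) (θ κ : ℝ) : Prop := ∀ ε : ℝ, 0 < ε → ∃ X₀ : ℝ,
  ∀ (i : ι) (T : ℝ), X₀ ≤ X i T → ∃ t : ℝ, |t - T| ≤ Real.pi * θ / Real.log (Q i T) ∧
    ‖L i (1 / 2 + t * I)‖ ≤ X i T ^ (κ + ε)

lemma large_of_rpow {c x p : ℝ} (hc : 0 < c) (hp : 0 < p) (hx : c ^ (1 / p) ≤ x) : c ≤ x ^ p := by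
  have h3 := Real.rpow_le_rpow (by positivity) hx hp.le
  rw [← Real.rpow_mul hc.le] at h3
  have : 1 / p * p = 1 := by field_simp
  rwa [this, Real.rpow_one] at h3

theorem Fam2.sampling (H : Fam2 L X Q) {θ κ : ℝ} (hθ : 0 < θ) (hκ : 0 ≤ κ)
    (hS : Sampled L X Q θ κ) {ε : ℝ} (hε : 0 < ε) : ∃ B : ℝ, ∀ (i : ι) (T : ℝ),
      ‖L i (1 / 2 + T * I)‖ ≤ B * X i T ^ ε * max (X i T ^ κ) (Q i T ^ ((1 - 1 / θ) / 4)) := by
  obtain ⟨mX, hmX, hXs⟩ := H.Xs
  obtain ⟨mQ, hmQ, hQs⟩ := H.Qs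
  obtain ⟨CC, BC, hCC, hBC, hcr⟩ := H.crude
  set ε₁ : ℝ := ε / 4 with hε₁
  have hε₁0 : 0 < ε₁ := by positivity
  obtain ⟨W, X₁, hW, hpl⟩ := H.plateaus hε₁0
  obtain ⟨X₂, hS2⟩ := hS ε₁ hε₁0
  set PW : ℝ := (1 + W) ^ mX with hPW
  set QW : ℝ := (1 + W) ^ mQ with hQW
  have hPW1 : 1 ≤ PW := Real.one_le_rpow (by linarith) hmX
  have hQW1 : 1 ≤ QW := Real.one_le_rpow (by linarith) hmQ
  set R : ℝ := PW ^ (κ + ε₁) with hR
  have hR1 : 1 ≤ R := Real.one_le_rpow hPW1 (by linarith)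
  have hkQ : 0 ≤ Real.log QW := Real.log_nonneg hQW1
  set X₃ : ℝ := 1 + |X₁| + PW * |X₂| + R ^ (1 / ε₁) + Real.exp (Real.log QW / (θ * ε₁)) with hX₃
  have hq1 : 0 ≤ |X₁| := abs_nonneg _
  have hq2 : 0 ≤ PW * |X₂| := by positivity
  have hq3 : 0 ≤ R ^ (1 / ε₁) := by positivity
  have hq4 : 0 ≤ Real.exp (Real.log QW / (θ * ε₁)) := (Real.exp_pos _).le
  have hX₃1 : 1 ≤ X₃ := by rw [hX₃]; linarith
  refine ⟨1 + CC * X₃ ^ BC, fun i T => ?_⟩
  have hX1 := H.X1 i T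
  have hXp : 0 < X i T := by linarith
  have hQ1 := H.Q1 i T
  have hQp : 0 < Q i T := by linarith
  set Λ : ℝ := Real.log (X i T) with hΛd
  set ℓ : ℝ := Real.log (Q i T) with hℓd
  have hΛ0 : 0 ≤ Λ := Real.log_nonneg hX1
  have hℓ0 : 0 ≤ ℓ := Real.log_nonneg hQ1
  have hκ1 : 1 ≤ X i T ^ κ := Real.one_le_rpow hX1 hκ
  have hXε : 1 ≤ X i T ^ ε := Real.one_le_rpow hX1 hε.le
  set MM : ℝ := max (X i T ^ κ) (Q i T ^ ((1 - 1 / θ) / 4)) with hMM
  have hMM1 : X i T ^ κ ≤ MM := le_max_left _ _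
  have hMM2 : Q i T ^ ((1 - 1 / θ) / 4) ≤ MM := le_max_right _ _
  have hMM0 : 1 ≤ MM := hκ1.trans hMM1
  have hBB : 1 ≤ 1 + CC * X₃ ^ BC := by
    have : 0 ≤ CC * X₃ ^ BC := by positivity
    linarith
  have hstep : ∀ v : ℝ, v ≤ X i T ^ ε * MM → v ≤ (1 + CC * X₃ ^ BC) * X i T ^ ε * MM := by
    intro v hv
    rw [mul_assoc]
    exact hv.trans (le_mul_of_one_le_left (by positivity) hBB)
  set V : ℝ := ‖L i (1 / 2 + T * I)‖ with hVd
  rcases lt_or_ge (X i T) X₃ with hsmall | hlarge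
  · have h1 := hcr i (1 / 2 + T * I) (by simp; norm_num)
    have e1 : ((1 / 2 : ℂ) + T * I).im = T := by simp
    rw [e1, ← hVd] at h1
    have h2 : X i T ^ BC ≤ X₃ ^ BC := Real.rpow_le_rpow hXp.le hsmall.le hBC
    have h3 : CC * X i T ^ BC ≤ CC * X₃ ^ BC := mul_le_mul_of_nonneg_left h2 hCC
    have h4 : 1 + CC * X₃ ^ BC ≤ (1 + CC * X₃ ^ BC) * (X i T ^ ε * MM) :=
      le_mul_of_one_le_right (by linarith) (one_le_mul_of_one_le_of_one_le hXε hMM0)
    rw [mul_assoc]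
    linarith
  · rcases lt_or_ge V 1 with hV | hV
    · apply hstep
      exact hV.le.trans (one_le_mul_of_one_le_of_one_le hXε hMM0)
    · obtain ⟨hD0, T₀, hT₀, hpl2⟩ := hpl i T (by
        have := le_abs_self X₁
        rw [hX₃] at hlarge
        linarith) hV
      have hlV : 0 ≤ Real.log V := Real.log_nonneg hV
      have hV0 : 0 < V := by linarith
      have hXT₀ : X i T ≤ PW * X i T₀ := by
        have h1 := hXs i T₀ (T - T₀)
        rw [add_sub_cancel] at h1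
        refine h1.trans (mul_le_mul_of_nonneg_right ?_ (by linarith [H.X1 i T₀]))
        exact Real.rpow_le_rpow (by positivity) (by rw [abs_sub_comm]; linarith) hmX
      have hXT₀' : X i T₀ ≤ PW * X i T := by
        have h1 := hXs i T (T₀ - T)
        rw [add_sub_cancel] at h1
        refine h1.trans (mul_le_mul_of_nonneg_right ?_ hXp.le)
        exact Real.rpow_le_rpow (by positivity) (by linarith) hmX
      have hQT₀ : Q i T ≤ QW * Q i T₀ := by
        have h1 := hQs i T₀ (T - T₀)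
        rw [add_sub_cancel] at h1
        refine h1.trans (mul_le_mul_of_nonneg_right ?_ (by linarith [H.Q1 i T₀]))
        exact Real.rpow_le_rpow (by positivity) (by rw [abs_sub_comm]; linarith) hmQ
      have hX₂ : X₂ ≤ X i T₀ := by
        have h1 : PW * |X₂| ≤ PW * X i T₀ := by
          rw [hX₃] at hlarge
          linarith
        exact (le_abs_self X₂).trans (le_of_mul_le_mul_left h1 (by linarith))
      obtain ⟨t, ht, hLt⟩ := hS2 i T₀ hX₂
      rcases le_or_gt |t - T₀| (Real.pi / (ℓ - 4 * Real.log V + ε₁ * Λ)) with hc | hc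
      · -- the sample point lies in the plateau
        have h1 := hpl2 t hc
        have h2 : X i T₀ ^ (κ + ε₁) ≤ R * X i T ^ (κ + ε₁) := by
          rw [hR, ← Real.mul_rpow (by linarith) hXp.le]
          exact Real.rpow_le_rpow (by linarith [H.X1 i T₀]) hXT₀' (by linarith)
        have h3 : R ≤ X i T ^ ε₁ := by
          apply large_of_rpow (by linarith) hε₁0
          rw [hX₃] at hlarge
          linarith
        have h4 : V ≤ X i T ^ ε₁ * (X i T ^ ε₁ * X i T ^ (κ + ε₁)) := by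
          have h5 : X i T ^ (-ε₁) * V ≤ X i T ^ ε₁ * X i T ^ (κ + ε₁) :=
            (h1.trans hLt).trans (h2.trans (mul_le_mul_of_nonneg_right h3 (by positivity)))
          have h6 := mul_le_mul_of_nonneg_left h5 (by positivity : 0 ≤ X i T ^ ε₁)
          rw [← mul_assoc, ← Real.rpow_add hXp] at h6
          simpa using h6
        apply hstep
        refine h4.trans ?_
        rw [← Real.rpow_add hXp, ← Real.rpow_add hXp]
        calc X i T ^ (ε₁ + (ε₁ + (κ + ε₁))) ≤ X i T ^ (ε + κ) := by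
              apply Real.rpow_le_rpow_of_exponent_le hX1
              rw [hε₁]; linarith
          _ = X i T ^ ε * X i T ^ κ := Real.rpow_add hXp _ _
          _ ≤ _ := mul_le_mul_of_nonneg_left hMM1 (by positivity)
      · -- the plateau is short
        have h1 : Real.pi / (ℓ - 4 * Real.log V + ε₁ * Λ) < Real.pi * θ / Real.log (Q i T₀) :=
          lt_of_lt_of_le hc ht
        have hpi := Real.pi_pos
        have hlQ : 0 < Real.log (Q i T₀) := by
          rcases eq_or_lt_of_le (Real.log_nonneg (H.Q1 i T₀)) with h | h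
          · rw [← h, div_zero] at h1
            have : 0 < Real.pi / (ℓ - 4 * Real.log V + ε₁ * Λ) := div_pos hpi hD0
            linarith
          · exact h
        rw [div_lt_div_iff₀ hD0 hlQ] at h1
        have h2 : Real.log (Q i T₀) < θ * (ℓ - 4 * Real.log V + ε₁ * Λ) := by
          have : Real.pi * Real.log (Q i T₀) < Real.pi * (θ * (ℓ - 4 * Real.log V + ε₁ * Λ)) := by
            rw [← mul_assoc]; exact h1
          exact lt_of_mul_lt_mul_left this hpi.le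
        have h3 : ℓ ≤ Real.log QW + Real.log (Q i T₀) := by
          have := Real.log_le_log hQp hQT₀
          rwa [Real.log_mul (by linarith) (by linarith [H.Q1 i T₀])] at this
        have h4 : Real.log QW ≤ θ * (ε₁ * Λ) := by
          have h5 : Real.exp (Real.log QW / (θ * ε₁)) ≤ X i T := by
            rw [hX₃] at hlarge
            linarith
          have h6 := Real.log_le_log (Real.exp_pos _) h5
          rw [Real.log_exp, div_le_iff₀ (by positivity)] at h6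
          linarith
        have h5 : ℓ < θ * (ℓ - 4 * Real.log V + 2 * (ε₁ * Λ)) := by linarith
        have h6 : 1 / θ * ℓ < ℓ - 4 * Real.log V + 2 * (ε₁ * Λ) := by
          rw [one_div, inv_mul_lt_iff₀ hθ]
          exact h5
        have h7 : Real.log V ≤ ε * Λ + (1 - 1 / θ) / 4 * ℓ := by
          have h8 : 2 * (ε₁ * Λ) = ε * Λ / 2 := by rw [hε₁]; ring
          have h9 : 0 ≤ ε * Λ := by positivity
          have h10 : (1 - 1 / θ) / 4 * ℓ = (ℓ - 1 / θ * ℓ) / 4 := by ring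
          rw [h10]
          linarith
        apply hstep
        calc V ≤ Real.exp (ε * Λ + (1 - 1 / θ) / 4 * ℓ) := (Real.log_le_iff_le_exp hV0).1 h7
          _ = X i T ^ ε * Q i T ^ ((1 - 1 / θ) / 4) := by
              rw [Real.exp_add, Real.rpow_def_of_pos hXp, Real.rpow_def_of_pos hQp]
              congr 2 <;> ring
          _ ≤ _ := mul_le_mul_of_nonneg_left hMM2 (by positivity)

/-- the exponent `κ` on the critical line -/
def Exponent (L : ι → ℂ → ℂ) (X : ι → ℝ → ℝ) (κ : ℝ) : Prop :=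
  ∀ ε : ℝ, 0 < ε → ∃ B : ℝ, ∀ (i : ι) (T : ℝ), ‖L i (1 / 2 + T * I)‖ ≤ B * X i T ^ (κ + ε)

theorem Fam2.sampled_iff (H : Fam2 L X Q) {θ κ : ℝ} (hθ : 0 < θ) (hθ1 : θ ≤ 1) (hκ : 0 ≤ κ) :
    Exponent L X κ ↔ Sampled L X Q θ κ := by
  constructor
  · intro h ε hε
    obtain ⟨B, hB⟩ := h (ε / 2) (by linarith)
    refine ⟨(1 + |B|) ^ (1 / (ε / 2)), fun i T hX => ⟨T, ?_, ?_⟩⟩
    · rw [sub_self, abs_zero]
      have h1 := Real.log_nonneg (H.Q1 i T)
      have hpi := Real.pi_pos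
      positivity
    · have hX1 := H.X1 i T
      have hXp : 0 < X i T := by linarith
      have h1 : 1 + |B| ≤ X i T ^ (ε / 2) := large_of_rpow (by positivity) (by linarith) hX
      have h2 : B ≤ X i T ^ (ε / 2) := by linarith [le_abs_self B]
      calc ‖L i (1 / 2 + T * I)‖ ≤ B * X i T ^ (κ + ε / 2) := hB i T
        _ ≤ X i T ^ (ε / 2) * X i T ^ (κ + ε / 2) := mul_le_mul_of_nonneg_right h2 (by positivity)
        _ = _ := by rw [← Real.rpow_add hXp]; congr 1; ring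
  · intro h ε hε
    obtain ⟨B, hB⟩ := H.sampling hθ hκ h hε
    refine ⟨B, fun i T => ?_⟩
    have hX1 := H.X1 i T
    have hXp : 0 < X i T := by linarith
    have h1 : Q i T ^ ((1 - 1 / θ) / 4) ≤ X i T ^ κ := by
      have h2 : 1 ≤ 1 / θ := by rw [le_div_iff₀ hθ]; linarith
      exact (Real.rpow_le_one_of_one_le_of_nonpos (H.Q1 i T) (by linarith)).trans
        (Real.one_le_rpow hX1 hκ)
    have h2 := hB i T
    rw [max_eq_left h1, mul_assoc, ← Real.rpow_add hXp, add_comm ε] at h2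
    exact h2

end W587.PL
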